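import Pool.Agent.Helper57.PP.Sum53

/-!
# PP, constant `0.53`: the certificate
-/

open MeasureTheory Set Filter Topology
open Pool.Agent.Helper57.Zeta Pool.Agent.Helper57.PC Pool.Agent.Helper57.LH Pool.Agent.Helper78.SG
open Pool.Agent.Helper4.SH
open Pool.Agent.Helper69.PP

namespace Pool.Agent.Helper57.PP

theorem RG1 : RG 24 (5 / 12 - 5 * (1 / 100000)) (1 / 3 - 4 * (1 / 100000)) 0 ≤ 1009 / 100000 := by
  unfold RG
  simp only [Finset.sum_range_succ, Finset.sum_range_zero]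
  norm_num

theorem RG2 : RG 8 (5 / 12 - 5 * (1 / 100000)) (1 / 4 - 4 * (1 / 100000)) (1 / 7 - 4 * (1 / 100000)) ≤ 125 / 100000 := by
  unfold RG
  simp only [Finset.sum_range_succ, Finset.sum_range_zero]
  norm_num

theorem RG3 : RG 6 (5 / 12 - 5 * (1 / 100000)) (1 / 5 - 4 * (1 / 100000)) (1 / 5 - 4 * (1 / 100000)) ≤ 80 / 100000 := by
  unfold RG
  simp only [Finset.sum_range_succ, Finset.sum_range_zero]
  norm_num

/-- the numerical certificate for `c = 0.53` -/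
theorem cert53 {κ lam : ℝ} (hk0 : 0 ≤ κ) (hk1 : κ ≤ 2449 / 10000) (hlam0 : 0 ≤ lam)
    (hlam : lam ≤ 1 - 53 / 100 - 2 * (53 / 100 * (1 / 2 - 2 * (1 / 100000)) ^ 2 - κ * (1 / 2 - 2 * (1 / 100000)) ^ 4 / 6) + 1 / 10000) :
    3 / 10000 ≤ 53 / 100 * (5 / 12 - 5 * (1 / 100000)) ^ 2 - κ * (5 / 12 - 5 * (1 / 100000)) ^ 4 / 6 -
      lam * (5 / 12 - 5 * (1 / 100000)) -
      (2 * (53 / 100) * (5 / 12 - 5 * (1 / 100000)) - lam) *
        (RG 24 (5 / 12 - 5 * (1 / 100000)) (1 / 3 - 4 * (1 / 100000)) 0 +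
        RG 8 (5 / 12 - 5 * (1 / 100000)) (1 / 4 - 4 * (1 / 100000)) (1 / 7 - 4 * (1 / 100000)) +
        RG 6 (5 / 12 - 5 * (1 / 100000)) (1 / 5 - 4 * (1 / 100000)) (1 / 5 - 4 * (1 / 100000))) := by
  have h1 := RG1
  have h2 := RG2
  have h3 := RG3
  obtain ⟨RR, hRR⟩ : ∃ RR : ℝ, RR = RG 24 (5 / 12 - 5 * (1 / 100000)) (1 / 3 - 4 * (1 / 100000)) 0 +
        RG 8 (5 / 12 - 5 * (1 / 100000)) (1 / 4 - 4 * (1 / 100000)) (1 / 7 - 4 * (1 / 100000)) +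
        RG 6 (5 / 12 - 5 * (1 / 100000)) (1 / 5 - 4 * (1 / 100000)) (1 / 5 - 4 * (1 / 100000)) := ⟨_, rfl⟩
  rw [← hRR]
  have hR : RR ≤ 1214 / 100000 := by linarith
  have hl2 : lam ≤ 22 / 100 := by
    refine hlam.trans ?_
    norm_num
    linarith
  have h4 : 0 ≤ 2 * (53 / 100) * (5 / 12 - 5 * (1 / 100000)) - lam := by
    norm_num
    linarith
  have h5 := mul_le_mul_of_nonneg_left hR h4
  have h6 : lam * (5 / 12 - 5 * (1 / 100000) - 1214 / 100000) ≤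
      (1 - 53 / 100 - 2 * (53 / 100 * (1 / 2 - 2 * (1 / 100000)) ^ 2 - κ * (1 / 2 - 2 * (1 / 100000)) ^ 4 / 6) + 1 / 10000) *
        (5 / 12 - 5 * (1 / 100000) - 1214 / 100000) := mul_le_mul_of_nonneg_right hlam (by norm_num)
  norm_num at h5 h6 ⊢
  nlinarith

end Pool.Agent.Helper57.PP
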