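import Pool.Agent.Helper69.PP.A2b
import Pool.Agent.Helper69.PP.A3d
import Pool.Agent.Helper69.PP.A5a
import Pool.Agent.Helper57.PP.Cert53

/-!
# PP: the arithmetic inequality for the constant `0.53`
-/

open MeasureTheory Set Filter Topology
open Pool.Agent.Helper57.Zeta Pool.Agent.Helper57.PC Pool.Agent.Helper57.LH Pool.Agent.Helper78.SG
open Pool.Agent.Helper4.SH
open Pool.Agent.Helper69.PP

namespace Pool.Agent.Helper57.PP

/-- the arithmetic inequality for `c = 0.53` -/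
theorem arith_main53 : ∃ P : Par, P.c = 53 / 100 ∧ ∃ ε0 : ℝ, 0 < ε0 ∧ ∀ᶠ T : ℝ in atTop,
    (1 - P.c + ε0) * AT P T ≤ BT P T := by
  obtain ⟨ε, hε⟩ : ∃ ε : ℝ, ε = 1 / 10 ^ 7 := ⟨_, rfl⟩
  have hε0 : 0 < ε := by rw [hε]; norm_num
  obtain ⟨P, hPc, hPe, hPδ, hF, hC⟩ := exists_par (c := 53 / 100) (ε := ε) (by norm_num) (by norm_num) hε0
    (by rw [hε]; norm_num)
  obtain ⟨X, hX⟩ : ∃ X : ℝ, X = P.c * (1 / 2 - 2 * P.e) ^ 2 - Helper69.PP.kap P.c * (1 / 2 - 2 * P.e) ^ 4 / 6 := ⟨_, rfl⟩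
  have hk0 : 0 ≤ Helper69.PP.kap (53 / 100) := by
    unfold Helper69.PP.kap
    positivity
  have hk1 : Helper69.PP.kap (53 / 100) ≤ 2449 / 10000 := by
    unfold Helper69.PP.kap
    have h1 := Real.pi_lt_d4
    have h2 := Real.pi_gt_three
    have h3 : Real.pi ^ 2 ≤ 3.1416 ^ 2 := by
      apply pow_le_pow_left₀ (by linarith)
      exact h1.le
    norm_num at h3 ⊢
    linarith
  have hX1 : X ≤ 53 / 400 := by
    rw [hX, hPc, hPe]
    have : 0 ≤ Helper69.PP.kap (53 / 100) * (1 / 2 - 2 * (1 / 100000 : ℝ)) ^ 4 / 6 := by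
      apply div_nonneg (mul_nonneg hk0 (by norm_num)) (by norm_num)
    have h2 : (53 / 100 : ℝ) * (1 / 2 - 2 * (1 / 100000 : ℝ)) ^ 2 ≤ 53 / 400 := by norm_num
    linarith
  have hX2 : 12 / 100 ≤ X := by
    rw [hX, hPc, hPe]
    have h1 : Helper69.PP.kap (53 / 100) * (1 / 2 - 2 * (1 / 100000 : ℝ)) ^ 4 / 6 ≤
        2449 / 10000 * (1 / 2 - 2 * (1 / 100000 : ℝ)) ^ 4 / 6 := by
      gcongr
    have h2 : (2449 / 10000 : ℝ) * (1 / 2 - 2 * (1 / 100000 : ℝ)) ^ 4 / 6 ≤ 3 / 1000 := by norm_num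
    have h3 : (132 / 1000 : ℝ) ≤ 53 / 100 * (1 / 2 - 2 * (1 / 100000 : ℝ)) ^ 2 := by norm_num
    linarith
  obtain ⟨wA, hwA⟩ : ∃ wA : ℝ, wA = 2 * X - 40 * ε := ⟨_, rfl⟩
  obtain ⟨mu, hmu⟩ : ∃ mu : ℝ, mu = 1 - P.c + 1 / 20000 := ⟨_, rfl⟩
  have hlam0 : 0 ≤ mu - wA := by
    rw [hmu, hwA, hPc, hε]
    linarith
  have hlam1 : mu - wA ≤ 3 / 10 := by
    rw [hmu, hwA, hPc, hε]
    linarith
  have hlam2 : mu - wA ≤ 1 - 53 / 100 - 2 * (53 / 100 * (1 / 2 - 2 * (1 / 100000)) ^ 2 -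
      Helper69.PP.kap (53 / 100) * (1 / 2 - 2 * (1 / 100000)) ^ 4 / 6) + 1 / 10000 := by
    have h1 : 53 / 100 * (1 / 2 - 2 * (1 / 100000)) ^ 2 - Helper69.PP.kap (53 / 100) * (1 / 2 - 2 * (1 / 100000)) ^ 4 / 6 = X := by
      rw [hX, hPc, hPe]
    rw [h1, hmu, hwA, hPc, hε]
    linarith
  have hnum := cert53 hk0 hk1 hlam0 hlam2
  have hsA := sumA P hPe hε0 hPδ hF hC
  have hsB := sumB53 P hPe hPc hε0 (by rw [hε]; norm_num) hPδ hF hC hlam0 hlam1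
  refine ⟨P, hPc, 1 / 20000, by norm_num, ?_⟩
  rw [← hmu]
  refine reduce P (mu := mu) (wA := wA) (rho := 1 / 10000) ?_ (by norm_num) ?_ ?_ ?_ ?_
  · rw [hmu, hPc]
    norm_num [abs_le]
  · rw [hwA, hε]
    linarith
  · rw [hwA, hε]
    linarith
  · filter_upwards [hsA, hF] with T h1 h2
    obtain ⟨h3, h4, h5⟩ := h1
    obtain ⟨h6, _, _⟩ := h2
    refine ⟨h3, ?_⟩
    refine le_trans ?_ h5
    have hw0 : 0 ≤ wA := by
      rw [hwA, hε]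
      linarith
    have h7 : wA * (∑ m ∈ NA P T, 1 / (m : ℝ)) ≤ wA * ((1 / 2 + ε) * vT P T) := mul_le_mul_of_nonneg_left h4 hw0
    refine h7.trans ?_
    rw [← hX]
    have h8 : wA * (1 / 2 + ε) ≤ X - 8 * ε := by
      rw [hwA]
      nlinarith
    have h9 : (wA * (1 / 2 + ε)) * vT P T ≤ (X - 8 * ε) * vT P T := mul_le_mul_of_nonneg_right h8 (by linarith)
    linarith
  · filter_upwards [hsB, hF] with T h1 h2
    obtain ⟨h6, _, _⟩ := h2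
    refine le_trans ?_ h1
    rw [hPe, hPc]
    have h3 : (1 : ℝ) / 5000 ≤ 53 / 100 * (5 / 12 - 5 * (1 / 100000)) ^ 2 -
        Helper69.PP.kap (53 / 100) * (5 / 12 - 5 * (1 / 100000)) ^ 4 / 6 - (mu - wA) * (5 / 12 - 5 * (1 / 100000)) -
        (2 * (53 / 100) * (5 / 12 - 5 * (1 / 100000)) - (mu - wA)) *
          (RG 24 (5 / 12 - 5 * (1 / 100000)) (1 / 3 - 4 * (1 / 100000)) 0 +
          RG 8 (5 / 12 - 5 * (1 / 100000)) (1 / 4 - 4 * (1 / 100000)) (1 / 7 - 4 * (1 / 100000)) +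
          RG 6 (5 / 12 - 5 * (1 / 100000)) (1 / 5 - 4 * (1 / 100000)) (1 / 5 - 4 * (1 / 100000))) - 500 * ε := by
      have h4 : 500 * ε ≤ 1 / 10000 := by
        rw [hε]
        norm_num
      linarith
    have h5 : (1 : ℝ) / 2 * (1 / 5000) ≤ vT P T * (1 / 5000) := mul_le_mul_of_nonneg_right h6 (by norm_num)
    have h7 := mul_le_mul_of_nonneg_left h3 (by linarith : 0 ≤ vT P T)
    linarith

end Pool.Agent.Helper57.PP
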