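import Pool.Agent.Helper69.PP.A0a
import Pool.Agent.Helper69.PP.A0c

/-!
# PP, constant `0.53`: the bad numbers in a box
-/

open MeasureTheory Set Filter Topology
open Pool.Agent.Helper57.Zeta Pool.Agent.Helper57.PC Pool.Agent.Helper57.LH Pool.Agent.Helper78.SG
open Pool.Agent.Helper4.SH
open Pool.Agent.Helper69.PP

namespace Pool.Agent.Helper57.PP

open Classical in
/-- rough numbers `n ≤ T^s` with a prime factor in `(T^a, T^b]` and cofactor larger than `T^w` (no condition if `w = 0`) -/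
noncomputable def BD (N : ℕ) (T s a b w : ℝ) : Finset ℕ :=
  (RN N (T ^ s)).filter (fun n => ∃ p ∈ n.primeFactors, a < yy T p ∧ yy T p ≤ b ∧ (w = 0 ∨ w < yy T n - yy T p))

/-- union bound -/
theorem cover {ι : Type*} (S : Finset ℕ) (I : Finset ι) (R : ι → Finset ℕ)
    (hc : ∀ n ∈ S, ∃ i ∈ I, n ∈ R i) (f : ℕ → ℝ) (hf : ∀ n, 0 ≤ f n) :
    ∑ n ∈ S, f n ≤ ∑ i ∈ I, ∑ n ∈ R i, f n := by
  classical
  calc ∑ n ∈ S, f n ≤ ∑ n ∈ S, ∑ i ∈ I, (if n ∈ R i then f n else 0) := by
        apply Finset.sum_le_sum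
        intro n hn
        obtain ⟨i, hi, hci⟩ := hc n hn
        have h := Finset.single_le_sum (f := fun i => if n ∈ R i then f n else 0)
          (fun i _ => by split_ifs <;> simp [hf n]) hi
        simpa [hci] using h
    _ = ∑ i ∈ I, ∑ n ∈ S, (if n ∈ R i then f n else 0) := Finset.sum_comm
    _ ≤ ∑ i ∈ I, ∑ n ∈ R i, f n := by
        apply Finset.sum_le_sum
        intro i _
        rw [← Finset.sum_filter]
        apply Finset.sum_le_sum_of_subset_of_nonneg
        · intro n hn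
          exact (Finset.mem_filter.1 hn).2
        · intro n _ _
          exact hf n

/-- one prime -/
theorem one_prime {N p : ℕ} {T s a w v ε : ℝ} (hT : 1 < T) (hp : p.Prime) (hN : N ≤ p) (hs1 : s ≤ 1) (ha0 : 0 ≤ a)
    (ha : a < yy T p) (hw : 0 ≤ w) (hws : w ≤ s - a)
    (hfl : ∀ θ ∈ Icc (0:ℝ) 1, θ * v ≤ RS N (T ^ θ) ∧ RS N (T ^ θ) ≤ (θ + ε) * v) :
    ∑ n ∈ (RN N (T ^ s)).filter (fun n => p ∣ n ∧ (w = 0 ∨ w < yy T n - yy T p)), 1 / (n : ℝ) ≤
      1 / (p : ℝ) * ((s - a - w + ε) * v) := by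
  classical
  have hp0 : (0 : ℝ) < p := by exact_mod_cast hp.pos
  have hL : 0 < Real.log T := Real.log_pos hT
  have hT0 : 0 < T := by linarith
  have hTs : 0 ≤ T ^ s := (Real.rpow_pos_of_pos hT0 s).le
  have hmult := RS_mult hp hN hTs
  have hle : T ^ s / p ≤ T ^ (s - a) := by
    rw [div_le_iff₀ hp0, ← div_le_iff₀' (Real.rpow_pos_of_pos hT0 _), ← Real.rpow_sub hT0]
    have h1 : s - (s - a) = a := by ring
    rw [h1]
    have h2 : a * Real.log T ≤ Real.log p := by
      have h3 := ha.le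
      unfold yy at h3
      rwa [le_div_iff₀ hL] at h3
    calc T ^ a = Real.exp (Real.log T * a) := Real.rpow_def_of_pos hT0 a
      _ ≤ Real.exp (Real.log p) := Real.exp_le_exp.2 (by linarith)
      _ = p := Real.exp_log hp0
  have hup : 1 / (p : ℝ) * RS N (T ^ s / p) ≤ 1 / (p : ℝ) * ((s - a + ε) * v) := by
    apply mul_le_mul_of_nonneg_left _ (by positivity)
    exact (RS_mono hle).trans (hfl (s - a) ⟨by linarith, by linarith⟩).2
  rcases eq_or_lt_of_le hw with hw0 | hw0
  · calc ∑ n ∈ (RN N (T ^ s)).filter (fun n => p ∣ n ∧ (w = 0 ∨ w < yy T n - yy T p)), 1 / (n : ℝ)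
        ≤ ∑ n ∈ (RN N (T ^ s)).filter (fun n => p ∣ n), 1 / (n : ℝ) := by
          apply Finset.sum_le_sum_of_subset_of_nonneg
          · intro n hn
            rw [Finset.mem_filter] at hn ⊢
            exact ⟨hn.1, hn.2.1⟩
          · intros
            positivity
      _ = 1 / (p : ℝ) * RS N (T ^ s / p) := hmult
      _ ≤ 1 / (p : ℝ) * ((s - a + ε) * v) := hup
      _ = 1 / (p : ℝ) * ((s - a - w + ε) * v) := by rw [← hw0]; ring
  · -- the multiples `p m`, `m ≤ T^w`
    by_cases hbig : yy T p + w ≤ s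
    · have hsub : (RN N (T ^ (yy T p + w))).filter (fun n => p ∣ n) ⊆ (RN N (T ^ s)).filter (fun n => p ∣ n) := by
        intro n hn
        rw [Finset.mem_filter, mem_RN] at hn ⊢
        exact ⟨⟨hn.1.1, hn.1.2.1.trans (Real.rpow_le_rpow_of_exponent_le hT.le hbig), hn.1.2.2⟩, hn.2⟩
      have hlow : 1 / (p : ℝ) * (w * v) ≤ ∑ n ∈ (RN N (T ^ (yy T p + w))).filter (fun n => p ∣ n), 1 / (n : ℝ) := by
        rw [RS_mult hp hN (Real.rpow_pos_of_pos hT0 _).le]
        apply mul_le_mul_of_nonneg_left _ (by positivity)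
        have h1 : T ^ (yy T p + w) / p = T ^ w := by
          rw [Real.rpow_add hT0]
          have h2 : T ^ (yy T p) = p := by
            rw [Real.rpow_def_of_pos hT0]
            unfold yy
            rw [mul_div_cancel₀ _ hL.ne', Real.exp_log hp0]
          rw [h2]
          field_simp
        rw [h1]
        exact (hfl w ⟨hw, by linarith⟩).1
      have hsd := Finset.sum_sdiff (f := fun n : ℕ => 1 / (n : ℝ)) hsub
      have hfin : ∑ n ∈ (RN N (T ^ s)).filter (fun n => p ∣ n ∧ (w = 0 ∨ w < yy T n - yy T p)), 1 / (n : ℝ) ≤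
          ∑ n ∈ (RN N (T ^ s)).filter (fun n => p ∣ n) \ (RN N (T ^ (yy T p + w))).filter (fun n => p ∣ n), 1 / (n : ℝ) := by
        apply Finset.sum_le_sum_of_subset_of_nonneg
        · intro n hn
          rw [Finset.mem_filter] at hn
          obtain ⟨h1, h2, h3⟩ := hn
          have h4 : w < yy T n - yy T p := by
            rcases h3 with h3 | h3
            · exact absurd h3 hw0.ne'
            · exact h3
          rw [Finset.mem_sdiff, Finset.mem_filter, Finset.mem_filter]
          refine ⟨⟨h1, h2⟩, fun h5 => ?_⟩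
          have h6 := (mem_RN.1 h5.1).2.1
          have hn0 : (0 : ℝ) < n := by
            have := (mem_RN.1 h1).1
            exact_mod_cast Nat.pos_of_ne_zero this
          have h7 : yy T n ≤ yy T p + w := by
            unfold yy at h6 ⊢
            rw [div_le_iff₀ hL]
            calc Real.log n ≤ Real.log (T ^ (Real.log p / Real.log T + w)) := Real.log_le_log hn0 h6
              _ = _ := Real.log_rpow hT0 _
          linarith
        · intros
          positivity
      rw [hmult] at hsd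
      calc _ ≤ _ := hfin
        _ ≤ 1 / (p : ℝ) * ((s - a + ε) * v) - 1 / (p : ℝ) * (w * v) := by linarith
        _ = _ := by ring
    · -- empty
      push Not at hbig
      have hv : 0 ≤ (s - a - w + ε) * v := by
        have h1 := (hfl (s - a) ⟨by linarith, by linarith⟩)
        have h2 := (hfl w ⟨hw, by linarith⟩)
        have h3 : RS N (T ^ w) ≤ RS N (T ^ (s - a)) :=
          RS_mono (Real.rpow_le_rpow_of_exponent_le hT.le hws)
        have h4 := h1.2
        have h5 := h2.1
        linarith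
      have hempty : (RN N (T ^ s)).filter (fun n => p ∣ n ∧ (w = 0 ∨ w < yy T n - yy T p)) = ∅ := by
        rw [Finset.filter_eq_empty_iff]
        rintro n hn ⟨_, h2⟩
        have hn0 : (0 : ℝ) < n := by
          have := (mem_RN.1 hn).1
          exact_mod_cast Nat.pos_of_ne_zero this
        have h6 := (mem_RN.1 hn).2.1
        have h7 : yy T n ≤ s := by
          unfold yy
          rw [div_le_iff₀ hL]
          calc Real.log n ≤ Real.log (T ^ s) := Real.log_le_log hn0 h6
            _ = _ := Real.log_rpow hT0 _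
        rcases h2 with h2 | h2
        · exact hw0.ne' h2
        · linarith
      rw [hempty, Finset.sum_empty]
      positivity

/-- one box -/
theorem one_box {N : ℕ} {T s a b w v ε : ℝ} (hT : 1 < T) (hs1 : s ≤ 1) (ha0 : 0 ≤ a)
    (hw : 0 ≤ w) (hws : w ≤ s - a)
    (hfl : ∀ θ ∈ Icc (0:ℝ) 1, θ * v ≤ RS N (T ^ θ) ∧ RS N (T ^ θ) ≤ (θ + ε) * v)
    (hm : |(∑ p ∈ (PP T).filter (fun p => a < yy T p ∧ yy T p ≤ b), 1 / (p : ℝ)) - Real.log (b / a)| ≤ ε) :
    ∑ n ∈ BD N T s a b w, 1 / (n : ℝ) ≤ (Real.log (b / a) + ε) * ((s - a - w + ε) * v) := by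
  classical
  have hT0 : 0 < T := by linarith
  have hv : 0 ≤ (s - a - w + ε) * v := by
    have h1 := (hfl (s - a) ⟨by linarith, by linarith⟩)
    have h2 := (hfl w ⟨hw, by linarith⟩)
    have h3 : RS N (T ^ w) ≤ RS N (T ^ (s - a)) :=
      RS_mono (Real.rpow_le_rpow_of_exponent_le hT.le hws)
    have h4 := h1.2
    have h5 := h2.1
    linarith
  have hc := cover (BD N T s a b w) ((PP T).filter (fun p => (a < yy T p ∧ yy T p ≤ b) ∧ N ≤ p))
    (fun p => (RN N (T ^ s)).filter (fun n => p ∣ n ∧ (w = 0 ∨ w < yy T n - yy T p))) ?_ (fun n => 1 / (n : ℝ))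
    (fun n => by positivity)
  · refine hc.trans ?_
    calc ∑ p ∈ (PP T).filter (fun p => (a < yy T p ∧ yy T p ≤ b) ∧ N ≤ p),
          ∑ n ∈ (RN N (T ^ s)).filter (fun n => p ∣ n ∧ (w = 0 ∨ w < yy T n - yy T p)), 1 / (n : ℝ)
        ≤ ∑ p ∈ (PP T).filter (fun p => (a < yy T p ∧ yy T p ≤ b) ∧ N ≤ p), 1 / (p : ℝ) * ((s - a - w + ε) * v) := by
          apply Finset.sum_le_sum
          intro p hp
          rw [Finset.mem_filter] at hp
          obtain ⟨h1, ⟨h2, _⟩, h3⟩ := hp
          exact one_prime hT (Finset.mem_filter.1 h1).2 h3 hs1 ha0 h2 hw hws hfl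
      _ ≤ ∑ p ∈ (PP T).filter (fun p => a < yy T p ∧ yy T p ≤ b), 1 / (p : ℝ) * ((s - a - w + ε) * v) := by
          apply Finset.sum_le_sum_of_subset_of_nonneg
          · intro p hp
            rw [Finset.mem_filter] at hp ⊢
            exact ⟨hp.1, hp.2.1⟩
          · intros
            positivity
      _ = (∑ p ∈ (PP T).filter (fun p => a < yy T p ∧ yy T p ≤ b), 1 / (p : ℝ)) * ((s - a - w + ε) * v) := by
          rw [Finset.sum_mul]
      _ ≤ _ := by
          apply mul_le_mul_of_nonneg_right _ hv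
          linarith [(abs_le.1 hm).2]
  · intro n hn
    unfold BD at hn
    rw [Finset.mem_filter] at hn
    obtain ⟨h1, p, hp, h2, h3, h4⟩ := hn
    have h5 := mem_RN.1 h1
    refine ⟨p, ?_, ?_⟩
    · rw [Finset.mem_filter]
      refine ⟨?_, ⟨h2, h3⟩, h5.2.2 p hp⟩
      unfold PP
      rw [Finset.mem_filter, Finset.mem_range, Nat.lt_succ_iff]
      refine ⟨?_, Nat.prime_of_mem_primeFactors hp⟩
      apply Nat.le_floor
      have h6 : (p : ℝ) ≤ n := by exact_mod_cast Nat.le_of_mem_primeFactors hp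
      calc (p : ℝ) ≤ T ^ s := h6.trans h5.2.1
        _ ≤ T ^ (1 : ℝ) := Real.rpow_le_rpow_of_exponent_le hT.le hs1
        _ = T := Real.rpow_one T
    · rw [Finset.mem_filter]
      exact ⟨h1, Nat.dvd_of_mem_primeFactors hp, h4⟩

/-- a region cut into `k` boxes -/
theorem region {N k : ℕ} {T s a h w v ε : ℝ} (hT : 1 < T) (hs1 : s ≤ 1) (ha0 : 1 / 10 ≤ a) (hh : 0 ≤ h) (hk : 0 < k)
    (hw : 0 ≤ w) (hws : a + k * h + w ≤ s) (hv : 0 ≤ v) (hε : 0 ≤ ε) (hε1 : ε ≤ 1)
    (hfl : ∀ θ ∈ Icc (0:ℝ) 1, θ * v ≤ RS N (T ^ θ) ∧ RS N (T ^ θ) ≤ (θ + ε) * v)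
    (hm : ∀ u u' : ℝ, 1 / 10 ≤ u → u ≤ u' → u' ≤ 1 →
      |(∑ p ∈ (PP T).filter (fun p => u < yy T p ∧ yy T p ≤ u'), 1 / (p : ℝ)) - Real.log (u' / u)| ≤ ε) :
    ∑ n ∈ BD N T s a (a + k * h) w, 1 / (n : ℝ) ≤
      v * (∑ i ∈ Finset.range k, (h / (a + i * h)) * (s - w - (a + i * h)) + k * (12 * ε)) := by
  classical
  have hT0 : 0 < T := by linarith
  have hc := cover (BD N T s a (a + k * h) w) (Finset.range k)
    (fun i => BD N T s (a + i * h) (a + (i + 1) * h) w) ?_ (fun n => 1 / (n : ℝ)) (fun n => by positivity)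
  · refine hc.trans ?_
    rw [mul_add, Finset.mul_sum]
    have hconst : v * (k * (12 * ε)) = ∑ _i ∈ Finset.range k, v * (12 * ε) := by
      rw [Finset.sum_const, Finset.card_range, nsmul_eq_mul]
      ring
    rw [hconst, ← Finset.sum_add_distrib]
    apply Finset.sum_le_sum
    intro i hi
    rw [Finset.mem_range] at hi
    have hi1 : (i : ℝ) + 1 ≤ k := by exact_mod_cast hi
    have hi0 : (0 : ℝ) ≤ i := Nat.cast_nonneg i
    have h1 : 0 ≤ (i : ℝ) * h := mul_nonneg hi0 hh
    have h2 : ((i : ℝ) + 1) * h ≤ k * h := mul_le_mul_of_nonneg_right hi1 hh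
    have ha1 : 0 < a + i * h := by linarith
    have hkh : 0 ≤ (k : ℝ) * h := by positivity
    have hb := one_box (N := N) (T := T) (s := s) (a := a + i * h) (b := a + (i + 1) * h) (w := w) (v := v) (ε := ε)
      hT hs1 ha1.le hw (by linarith) hfl (hm _ _ (by linarith) (by linarith) (by linarith))
    refine hb.trans ?_
    have hlog : Real.log ((a + (i + 1) * h) / (a + i * h)) ≤ h / (a + i * h) := by
      have h3 : 0 < (a + (i + 1) * h) / (a + i * h) := by
        apply div_pos _ ha1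
        linarith
      refine (Real.log_le_sub_one_of_pos h3).trans (le_of_eq ?_)
      field_simp
      ring
    have hS0 : 0 ≤ s - w - (a + i * h) := by linarith
    have hS1 : s - w - (a + i * h) ≤ 1 := by linarith
    have hh1 : h ≤ 1 := by
      have : h ≤ k * h := by
        have hk1 : (1 : ℝ) ≤ k := by exact_mod_cast hk
        nlinarith
      linarith
    have hD0 : 0 ≤ h / (a + i * h) := by positivity
    have hD1 : h / (a + i * h) ≤ 10 := by
      rw [div_le_iff₀ ha1]
      linarith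
    calc (Real.log ((a + (i + 1) * h) / (a + i * h)) + ε) * ((s - (a + i * h) - w + ε) * v)
        ≤ (h / (a + i * h) + ε) * ((s - (a + i * h) - w + ε) * v) := by
          apply mul_le_mul_of_nonneg_right (by linarith)
          apply mul_nonneg _ hv
          linarith
      _ = v * ((h / (a + i * h)) * (s - w - (a + i * h)) + ε * (h / (a + i * h) + (s - w - (a + i * h)) + ε)) := by ring
      _ ≤ v * ((h / (a + i * h)) * (s - w - (a + i * h)) + ε * 12) := by
          apply mul_le_mul_of_nonneg_left _ hv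
          have : ε * (h / (a + i * h) + (s - w - (a + i * h)) + ε) ≤ ε * 12 :=
            mul_le_mul_of_nonneg_left (by linarith) hε
          linarith
      _ = _ := by ring
  · intro n hn
    unfold BD at hn ⊢
    rw [Finset.mem_filter] at hn
    obtain ⟨h1, p, hp, h2, h3, h4⟩ := hn
    -- find the box
    have hex : ∃ i : ℕ, yy T p ≤ a + (i + 1) * h ∧ i < k := by
      obtain ⟨j, rfl⟩ : ∃ j, k = j + 1 := ⟨k - 1, by omega⟩
      refine ⟨j, ?_, by omega⟩
      push_cast at h3
      exact h3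
    classical
    obtain ⟨h5, h6⟩ := Nat.find_spec hex
    refine ⟨Nat.find hex, Finset.mem_range.2 h6, ?_⟩
    rw [Finset.mem_filter]
    refine ⟨h1, p, hp, ?_, h5, h4⟩
    rcases Nat.eq_zero_or_pos (Nat.find hex) with h0 | h0
    · rw [h0]
      simpa using h2
    · obtain ⟨j, hj⟩ : ∃ j, Nat.find hex = j + 1 := ⟨Nat.find hex - 1, by omega⟩
      have h7 := Nat.find_min hex (m := j) (by omega)
      rw [hj]
      push_cast
      by_contra hcon
      push Not at hcon
      exact h7 ⟨hcon, by omega⟩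

end Pool.Agent.Helper57.PP
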