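import Pool.Agent.Helper57.LS.Mertens

/-! Flat density of rough numbers: `VR N * log (M+1) <= SR N M` and
`SR N M * (1 - C exp (-k)) <= VR N * (1 + log M + k log N)`. -/

namespace Pool.Agent.Helper57.PP

open Finset

/-- all prime factors of `n` are at least `N` -/
def Rough (N n : ℕ) : Prop := ∀ p : ℕ, p.Prime → p ∣ n → N ≤ p

/-- the sieve density -/
noncomputable def VR (N : ℕ) : ℝ := ∏ p ∈ N.primesBelow, (1 - (p:ℝ)⁻¹)

open Classical in
/-- the harmonic sum over rough numbers -/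
noncomputable def SR (N M : ℕ) : ℝ := ∑ n ∈ (Finset.Icc 1 M).filter (fun n => Rough N n), (n:ℝ)⁻¹

/-- the multiplicative function `n ^ (a - 1)` -/
noncomputable def fA (a : ℝ) : ℕ →* ℝ where
  toFun n := (n:ℝ) ^ (a - 1)
  map_one' := by simp
  map_mul' x y := by
    push_cast
    rw [Real.mul_rpow (by positivity) (by positivity)]

lemma fA_apply (a : ℝ) (n : ℕ) : fA a n = (n:ℝ) ^ (a - 1) := rfl

lemma fA_zero (n : ℕ) : fA 0 n = (n:ℝ)⁻¹ := by
  rw [fA_apply, zero_sub, Real.rpow_neg_one]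

lemma fA_nonneg (a : ℝ) (n : ℕ) : 0 ≤ fA a n := by
  rw [fA_apply]; positivity

lemma fA_prime {a : ℝ} (ha : a < 1) {p : ℕ} (hp : p.Prime) : ‖fA a p‖ < 1 := by
  rw [Real.norm_of_nonneg (fA_nonneg a p), fA_apply]
  apply Real.rpow_lt_one_of_one_lt_of_neg
  · exact_mod_cast hp.one_lt
  · linarith

lemma hasSum_smooth {a : ℝ} (ha : a < 1) (N : ℕ) :
    HasSum (fun m : ℕ => (N.smoothNumbers).indicator (fA a) m) (∏ p ∈ N.primesBelow, (1 - fA a p)⁻¹) := by
  have h := (EulerProduct.summable_and_hasSum_smoothNumbers_prod_primesBelow_geometric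
    (f := fA a) (fun {p} hp => fA_prime ha hp) N).2
  have h2 := (hasSum_subtype_iff_indicator (f := fun n => fA a n) (s := N.smoothNumbers)
    (a := ∏ p ∈ N.primesBelow, (1 - fA a p)⁻¹)).1 h
  exact h2

lemma VR_pos (N : ℕ) : 0 < VR N := by
  unfold VR
  apply Finset.prod_pos
  intro p hp
  have h := Nat.prime_of_mem_primesBelow hp
  have h1 : (1:ℝ) < p := by exact_mod_cast h.one_lt
  have := inv_lt_one_of_one_lt₀ h1
  linarith

lemma prod_inv_VR (N : ℕ) : ∏ p ∈ N.primesBelow, (1 - fA 0 p)⁻¹ = (VR N)⁻¹ := by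
  unfold VR
  rw [← Finset.prod_inv_distrib]
  refine Finset.prod_congr rfl fun p _ => ?_
  rw [fA_zero]

lemma exists_split (N : ℕ) : ∀ n : ℕ, n ≠ 0 → ∃ a b : ℕ, a ∈ N.smoothNumbers ∧ b ≠ 0 ∧ Rough N b ∧ a * b = n := by
  intro n
  induction n using Nat.strong_induction_on with
  | _ n ih =>
    intro hn
    by_cases h : Rough N n
    · exact ⟨1, n, by simp [Nat.mem_smoothNumbers], hn, h, one_mul n⟩
    · unfold Rough at h
      push Not at h
      obtain ⟨p, hp, hpn, hpN⟩ := h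
      obtain ⟨m, rfl⟩ := hpn
      have hm : m ≠ 0 := by rintro rfl; simp at hn
      have hlt : m < p * m := by
        have := hp.one_lt
        have hm' : 0 < m := Nat.pos_of_ne_zero hm
        nlinarith
      obtain ⟨a, b, ha, hb, hb2, hab⟩ := ih m hlt hm
      refine ⟨p * a, b, ?_, hb, hb2, by rw [mul_assoc, hab]⟩
      apply Nat.mul_mem_smoothNumbers _ ha
      rw [Nat.mem_smoothNumbers']
      intro q hq hqp
      rw [(Nat.prime_dvd_prime_iff_eq hq hp).1 hqp]
      exact hpN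

lemma split_inj {N a b a' b' : ℕ} (ha : a ∈ N.smoothNumbers) (ha' : a' ∈ N.smoothNumbers)
    (hb : Rough N b) (hb' : Rough N b') (h : a * b = a' * b') : a = a' := by
  have key : ∀ {x y : ℕ}, x ∈ N.smoothNumbers → Rough N y → Nat.Coprime x y := by
    intro x y hx hy
    rw [Nat.coprime_iff_gcd_eq_one, ← Nat.coprime_iff_gcd_eq_one]
    by_contra hc
    obtain ⟨p, hp, hpx, hpy⟩ := Nat.Prime.not_coprime_iff_dvd.1 hc
    have h1 := (Nat.mem_smoothNumbers'.1 hx) p hp hpx
    have h2 := hy p hp hpy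
    omega
  have d1 : a ∣ a' := by
    apply (key ha hb').dvd_of_dvd_mul_right
    rw [← h]; exact dvd_mul_right a b
  have d2 : a' ∣ a := by
    apply (key ha' hb).dvd_of_dvd_mul_right
    rw [h]; exact dvd_mul_right a' b'
  exact Nat.dvd_antisymm d1 d2

open Classical in
/-- harmonic sum over smooth numbers up to `Y` -/
noncomputable def AS (N Y : ℕ) : ℝ := ∑ n ∈ (Finset.Icc 1 Y).filter (fun n => n ∈ N.smoothNumbers), (n:ℝ)⁻¹

open Classical in
lemma AS_le (N Y : ℕ) : AS N Y ≤ (VR N)⁻¹ := by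
  have h := hasSum_smooth (a := 0) (by norm_num) N
  rw [prod_inv_VR] at h
  have h2 := sum_le_hasSum ((Finset.Icc 1 Y).filter (fun n => n ∈ N.smoothNumbers))
    (fun i _ => Set.indicator_nonneg (fun n _ => fA_nonneg 0 n) i) h
  refine le_trans (le_of_eq ?_) h2
  unfold AS
  refine Finset.sum_congr rfl fun n hn => ?_
  rw [Finset.mem_filter] at hn
  rw [Set.indicator_of_mem hn.2, fA_zero]

open Classical in
/-- Lower bound for the harmonic sum over rough numbers. -/
theorem flat_lower (N M : ℕ) : VR N * Real.log (M + 1) ≤ SR N M := by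
  have hV := VR_pos N
  have h1 : Real.log (M + 1) ≤ ∑ n ∈ Finset.Icc 1 M, (n:ℝ)⁻¹ := by
    have h := log_add_one_le_harmonic M
    rw [harmonic_eq_sum_Icc] at h
    push_cast at h
    exact h
  have h2 : ∑ n ∈ Finset.Icc 1 M, (n:ℝ)⁻¹ ≤ AS N M * SR N M := by
    choose! a b ha hb hb2 hab using exists_split N
    have hinj : Set.InjOn (fun n => (a n, b n)) (Finset.Icc 1 M : Finset ℕ) := by
      intro x hx y hy hxy
      rw [Finset.mem_coe, Finset.mem_Icc] at hx hy
      have h1 := hab x (by omega)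
      have h2 := hab y (by omega)
      simp only [Prod.mk.injEq] at hxy
      rw [← h1, ← h2, hxy.1, hxy.2]
    have e1 : ∑ n ∈ Finset.Icc 1 M, (n:ℝ)⁻¹ = ∑ n ∈ Finset.Icc 1 M, (fun x : ℕ × ℕ => (x.1:ℝ)⁻¹ * (x.2:ℝ)⁻¹) (a n, b n) := by
      refine Finset.sum_congr rfl fun n hn => ?_
      rw [Finset.mem_Icc] at hn
      have h1 := hab n (by omega)
      have h2 : (n:ℝ) = (a n : ℝ) * (b n : ℝ) := by exact_mod_cast h1.symm
      simp only
      rw [h2, mul_inv]
    rw [e1, ← Finset.sum_image (f := fun x : ℕ × ℕ => (x.1:ℝ)⁻¹ * (x.2:ℝ)⁻¹) (g := fun n => (a n, b n)) hinj]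
    unfold AS SR
    rw [Finset.sum_mul_sum, ← Finset.sum_product']
    apply Finset.sum_le_sum_of_subset_of_nonneg
    · intro x hx
      rw [Finset.mem_image] at hx
      obtain ⟨n, hn, rfl⟩ := hx
      rw [Finset.mem_Icc] at hn
      have hn0 : n ≠ 0 := by omega
      have h1 := hab n hn0
      have ha0 : a n ≠ 0 := Nat.ne_zero_of_mem_smoothNumbers (ha n hn0)
      have hb0 := hb n hn0
      have hla : a n ≤ n := Nat.le_of_dvd (by omega) ⟨b n, h1.symm⟩
      have hlb : b n ≤ n := Nat.le_of_dvd (by omega) ⟨a n, by rw [mul_comm]; exact h1.symm⟩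
      rw [Finset.mem_product, Finset.mem_filter, Finset.mem_filter, Finset.mem_Icc, Finset.mem_Icc]
      exact ⟨⟨⟨Nat.one_le_iff_ne_zero.2 ha0, by omega⟩, ha n hn0⟩, ⟨⟨Nat.one_le_iff_ne_zero.2 hb0, by omega⟩, hb2 n hn0⟩⟩
    · intro x _ _
      positivity
  have hS : 0 ≤ SR N M := Finset.sum_nonneg fun n _ => by positivity
  have h3 : AS N M * SR N M ≤ (VR N)⁻¹ * SR N M := mul_le_mul_of_nonneg_right (AS_le N M) hS
  have h4 : Real.log (M + 1) ≤ (VR N)⁻¹ * SR N M := by linarith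
  calc VR N * Real.log (M + 1) ≤ VR N * ((VR N)⁻¹ * SR N M) := mul_le_mul_of_nonneg_left h4 hV.le
    _ = SR N M := by rw [← mul_assoc, mul_inv_cancel₀ hV.ne', one_mul]

open Classical in
lemma prod_le (N M Y : ℕ) (hM : 1 ≤ M) (hY : 1 ≤ Y) : AS N Y * SR N M ≤ 1 + Real.log M + Real.log Y := by
  have h1 : ∑ n ∈ Finset.Icc 1 (Y * M), (n:ℝ)⁻¹ ≤ 1 + Real.log M + Real.log Y := by
    have h := harmonic_le_one_add_log (Y * M)
    rw [harmonic_eq_sum_Icc] at h
    push_cast at h
    rw [Real.log_mul (by positivity) (by positivity)] at h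
    linarith
  refine le_trans ?_ h1
  unfold AS SR
  rw [Finset.sum_mul_sum, ← Finset.sum_product']
  have hinj : Set.InjOn (fun x : ℕ × ℕ => x.1 * x.2)
      (((Finset.Icc 1 Y).filter (fun n => n ∈ N.smoothNumbers) ×ˢ (Finset.Icc 1 M).filter (fun n => Rough N n) : Finset (ℕ × ℕ)) : Set (ℕ × ℕ)) := by
    intro x hx y hy hxy
    rw [Finset.mem_coe, Finset.mem_product, Finset.mem_filter, Finset.mem_filter, Finset.mem_Icc, Finset.mem_Icc] at hx hy
    simp only at hxy
    have e1 := split_inj hx.1.2 hy.1.2 hx.2.2 hy.2.2 hxy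
    have e2 : x.2 = y.2 := by
      rw [e1] at hxy
      exact Nat.eq_of_mul_eq_mul_left (by omega) hxy
    exact Prod.ext e1 e2
  calc ∑ x ∈ ((Finset.Icc 1 Y).filter (fun n => n ∈ N.smoothNumbers) ×ˢ (Finset.Icc 1 M).filter (fun n => Rough N n)), (x.1:ℝ)⁻¹ * (x.2:ℝ)⁻¹
      = ∑ x ∈ ((Finset.Icc 1 Y).filter (fun n => n ∈ N.smoothNumbers) ×ˢ (Finset.Icc 1 M).filter (fun n => Rough N n)), (fun n : ℕ => (n:ℝ)⁻¹) (x.1 * x.2) := by
        refine Finset.sum_congr rfl fun x _ => ?_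
        simp only
        push_cast
        rw [mul_inv]
    _ = ∑ n ∈ ((Finset.Icc 1 Y).filter (fun n => n ∈ N.smoothNumbers) ×ˢ (Finset.Icc 1 M).filter (fun n => Rough N n)).image (fun x : ℕ × ℕ => x.1 * x.2), (n:ℝ)⁻¹ :=
        (Finset.sum_image (f := fun n : ℕ => (n:ℝ)⁻¹) hinj).symm
    _ ≤ ∑ n ∈ Finset.Icc 1 (Y * M), (n:ℝ)⁻¹ := by
        apply Finset.sum_le_sum_of_subset_of_nonneg
        · intro n hn
          rw [Finset.mem_image] at hn
          obtain ⟨x, hx, rfl⟩ := hn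
          rw [Finset.mem_product, Finset.mem_filter, Finset.mem_filter, Finset.mem_Icc, Finset.mem_Icc] at hx
          rw [Finset.mem_Icc]
          exact ⟨Nat.mul_pos (by omega) (by omega), Nat.mul_le_mul hx.1.1.2 hx.2.1.2⟩
        · intro n _ _
          positivity

/-- prime factor of the Rankin ratio -/
lemma euler_factor {p : ℕ} (hp : p.Prime) {a : ℝ} (ha0 : 0 ≤ a) (ha : a ≤ 1/2) (hpa : a * Real.log p ≤ 1) :
    (1 - fA a p)⁻¹ ≤ (1 - fA 0 p)⁻¹ * Real.exp (12 * a * (Real.log p / p)) := by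
  have hp1 : (1:ℝ) < p := by exact_mod_cast hp.one_lt
  have hp2 : (2:ℝ) ≤ p := by exact_mod_cast hp.two_le
  have hp0 : (0:ℝ) < p := by linarith
  have hlog : 0 < Real.log p := Real.log_pos hp1
  have hf0 : fA 0 p = (p:ℝ)⁻¹ := fA_zero p
  have hfa : fA a p = (p:ℝ)⁻¹ * Real.exp (a * Real.log p) := by
    rw [fA_apply, Real.rpow_sub hp0, Real.rpow_one, Real.rpow_def_of_pos hp0, mul_comm (Real.log p) a]
    field_simp
  set t := a * Real.log p with ht
  have ht0 : 0 ≤ t := by positivity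
  have h1 : Real.exp t - 1 ≤ 3 * t := by
    have h := Real.add_one_le_exp (-t)
    have hE : Real.exp (-t) * Real.exp t = 1 := by rw [← Real.exp_add]; simp
    have hpos := Real.exp_pos t
    have h3 : Real.exp t ≤ 3 := by
      calc Real.exp t ≤ Real.exp 1 := Real.exp_le_exp.2 hpa
        _ ≤ 3 := by have := Real.exp_one_lt_d9; linarith
    have : (-t + 1) * Real.exp t ≤ 1 := by
      calc (-t + 1) * Real.exp t ≤ Real.exp (-t) * Real.exp t := mul_le_mul_of_nonneg_right h hpos.le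
        _ = 1 := hE
    nlinarith
  have hle : fA a p ≤ 3/4 := by
    rw [fA_apply]
    calc (p:ℝ) ^ (a - 1) ≤ (p:ℝ) ^ (-(1/2:ℝ)) := Real.rpow_le_rpow_of_exponent_le hp1.le (by linarith)
      _ ≤ (2:ℝ) ^ (-(1/2:ℝ)) := Real.rpow_le_rpow_of_nonpos (by norm_num) hp2 (by norm_num)
      _ ≤ 3/4 := by
        rw [Real.rpow_neg (by norm_num), ← Real.sqrt_eq_rpow]
        have h := Real.lt_sqrt (x := (4/3:ℝ)) (y := 2) (by norm_num)
        have h2 : (4/3:ℝ) < Real.sqrt 2 := h.2 (by norm_num)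
        rw [inv_le_comm₀ (by positivity) (by norm_num)]
        linarith
  have hpinv : (p:ℝ)⁻¹ ≤ 1/2 := by
    rw [inv_le_comm₀ hp0 (by norm_num)]; linarith
  have hA : 0 < 1 - fA a p := by linarith
  have hB : 0 < 1 - fA 0 p := by rw [hf0]; linarith
  rw [inv_le_iff_one_le_mul₀ hA]
  have h5 : (1 - fA 0 p) ≤ (1 - fA a p) * Real.exp (12 * a * (Real.log p / p)) := by
    have h6 : 12 * a * (Real.log p / p) + 1 ≤ Real.exp (12 * a * (Real.log p / p)) := Real.add_one_le_exp _
    have h7 : (1 - fA a p) * (12 * a * (Real.log p / p) + 1) ≤ (1 - fA a p) * Real.exp (12 * a * (Real.log p / p)) :=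
      mul_le_mul_of_nonneg_left h6 hA.le
    refine le_trans ?_ h7
    have h8 : 12 * a * (Real.log p / p) = 12 * t * (p:ℝ)⁻¹ := by rw [ht]; field_simp
    rw [h8, hf0]
    have h9 : fA a p - (p:ℝ)⁻¹ ≤ 3 * t * (p:ℝ)⁻¹ := by
      rw [hfa]
      have hpi : 0 < (p:ℝ)⁻¹ := by positivity
      nlinarith
    have h10 : (1:ℝ)/4 ≤ 1 - fA a p := by linarith
    have h11 : 0 ≤ 12 * t * (p:ℝ)⁻¹ := by positivity
    nlinarith
  calc (1:ℝ) = (1 - fA 0 p)⁻¹ * (1 - fA 0 p) := by rw [inv_mul_cancel₀ hB.ne']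
    _ ≤ (1 - fA 0 p)⁻¹ * ((1 - fA a p) * Real.exp (12 * a * (Real.log p / p))) :=
        mul_le_mul_of_nonneg_left h5 (by positivity)
    _ = _ := by ring

/-- the constant of the Rankin bound -/
noncomputable def CR : ℝ := Real.exp (12 * (1 + (Real.log 4 + 4)))

lemma sum_logp_le {N : ℕ} (hN : 1 ≤ N) : ∑ p ∈ N.primesBelow, Real.log p / p ≤ Real.log N + (Real.log 4 + 4) := by
  refine le_trans ?_ (LS.vM_upper hN)
  calc ∑ p ∈ N.primesBelow, Real.log p / p = ∑ p ∈ N.primesBelow, ArithmeticFunction.vonMangoldt p / p := by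
        refine Finset.sum_congr rfl fun p hp => ?_
        rw [ArithmeticFunction.vonMangoldt_apply_prime (Nat.prime_of_mem_primesBelow hp)]
    _ ≤ ∑ d ∈ Finset.range (N + 1), ArithmeticFunction.vonMangoldt d / d := by
        apply Finset.sum_le_sum_of_subset_of_nonneg
        · intro p hp
          have := Nat.lt_of_mem_primesBelow hp
          rw [Finset.mem_range]; omega
        · intro d _ _
          have := ArithmeticFunction.vonMangoldt_nonneg (n := d)
          positivity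

lemma prodA_le {N : ℕ} (hN : 8 ≤ N) :
    ∏ p ∈ N.primesBelow, (1 - fA (1 / Real.log N) p)⁻¹ ≤ (VR N)⁻¹ * CR := by
  have hN0 : (8:ℝ) ≤ N := by exact_mod_cast hN
  have hlogN : 2 ≤ Real.log N := by
    rw [Real.le_log_iff_exp_le (by linarith)]
    have h := Real.exp_one_lt_d9
    have h2 : Real.exp 2 = Real.exp 1 * Real.exp 1 := by rw [← Real.exp_add]; norm_num
    rw [h2]
    have := Real.exp_pos 1
    nlinarith
  have hL0 : 0 < Real.log N := by linarith
  set a := 1 / Real.log N with ha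
  have ha0 : 0 ≤ a := by positivity
  have ha1 : a ≤ 1/2 := by
    rw [ha]; exact one_div_le_one_div_of_le (by norm_num) hlogN
  rw [← prod_inv_VR]
  calc ∏ p ∈ N.primesBelow, (1 - fA a p)⁻¹
      ≤ ∏ p ∈ N.primesBelow, ((1 - fA 0 p)⁻¹ * Real.exp (12 * a * (Real.log p / p))) := by
        apply Finset.prod_le_prod
        · intro p hp
          have hpp := Nat.prime_of_mem_primesBelow hp
          have h := fA_prime (a := a) (by linarith) hpp
          rw [Real.norm_of_nonneg (fA_nonneg a p)] at h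
          have : 0 < 1 - fA a p := by linarith
          positivity
        · intro p hp
          have hpp := Nat.prime_of_mem_primesBelow hp
          have hlt := Nat.lt_of_mem_primesBelow hp
          have hp0 : (0:ℝ) < p := by exact_mod_cast hpp.pos
          apply euler_factor hpp ha0 ha1
          have : Real.log p ≤ Real.log N := Real.log_le_log hp0 (by exact_mod_cast hlt.le)
          rw [ha, one_div, inv_mul_le_iff₀ hL0]
          linarith
    _ = (∏ p ∈ N.primesBelow, (1 - fA 0 p)⁻¹) * Real.exp (12 * a * ∑ p ∈ N.primesBelow, (Real.log p / p)) := by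
        rw [Finset.prod_mul_distrib, Finset.mul_sum, Real.exp_sum]
    _ ≤ (∏ p ∈ N.primesBelow, (1 - fA 0 p)⁻¹) * CR := by
        have hP : 0 ≤ ∏ p ∈ N.primesBelow, (1 - fA 0 p)⁻¹ := by
          rw [prod_inv_VR]; have := VR_pos N; positivity
        apply mul_le_mul_of_nonneg_left _ hP
        unfold CR
        apply Real.exp_le_exp.2
        have h := sum_logp_le (N := N) (by omega)
        have h4 : 0 ≤ Real.log 4 := Real.log_nonneg (by norm_num)
        have e1 : 12 * a * ∑ p ∈ N.primesBelow, (Real.log p / p) ≤ 12 * a * (Real.log N + (Real.log 4 + 4)) :=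
          mul_le_mul_of_nonneg_left h (by positivity)
        have e2 : a * Real.log N = 1 := by rw [ha]; field_simp
        have e3 : 12 * a * (Real.log N + (Real.log 4 + 4)) = 12 * (a * Real.log N) + 12 * (a * (Real.log 4 + 4)) := by ring
        rw [e3, e2] at e1
        have e4 : a * (Real.log 4 + 4) ≤ 1 * (Real.log 4 + 4) := mul_le_mul_of_nonneg_right (by linarith) (by linarith)
        linarith

open Classical in
lemma AS_lower {N : ℕ} (hN : 8 ≤ N) {Y : ℕ} (hY : 1 ≤ Y) :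
    (VR N)⁻¹ * (1 - CR * Real.exp (-(Real.log Y / Real.log N))) ≤ AS N Y := by
  have hN0 : (8:ℝ) ≤ N := by exact_mod_cast hN
  have hlogN : 2 ≤ Real.log N := by
    rw [Real.le_log_iff_exp_le (by linarith)]
    have h := Real.exp_one_lt_d9
    have h2 : Real.exp 2 = Real.exp 1 * Real.exp 1 := by rw [← Real.exp_add]; norm_num
    rw [h2]
    have := Real.exp_pos 1
    nlinarith
  have hL0 : 0 < Real.log N := by linarith
  have hYr : (1:ℝ) ≤ Y := by exact_mod_cast hY
  have hY0 : (0:ℝ) < Y := by linarith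
  set a := 1 / Real.log N with ha
  have ha0 : 0 ≤ a := by positivity
  have ha1 : a ≤ 1/2 := by
    rw [ha]; exact one_div_le_one_div_of_le (by norm_num) hlogN
  have h0 := hasSum_smooth (a := 0) (by norm_num) N
  rw [prod_inv_VR] at h0
  have hA := (hasSum_smooth (a := a) (by linarith) N).mul_left ((Y:ℝ) ^ (-a))
  have hF : HasSum (fun n : ℕ => if n ∈ (Finset.Icc 1 Y).filter (fun n => n ∈ N.smoothNumbers) then (n:ℝ)⁻¹ else 0) (AS N Y) := by
    unfold AS
    have h : HasSum (fun n : ℕ => if n ∈ (Finset.Icc 1 Y).filter (fun n => n ∈ N.smoothNumbers) then (n:ℝ)⁻¹ else 0)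
        (∑ n ∈ (Finset.Icc 1 Y).filter (fun n => n ∈ N.smoothNumbers), (if n ∈ (Finset.Icc 1 Y).filter (fun n => n ∈ N.smoothNumbers) then (n:ℝ)⁻¹ else 0)) :=
      hasSum_sum_of_ne_finset_zero (fun n hn => if_neg hn)
    have e : ∑ n ∈ (Finset.Icc 1 Y).filter (fun n => n ∈ N.smoothNumbers), (if n ∈ (Finset.Icc 1 Y).filter (fun n => n ∈ N.smoothNumbers) then (n:ℝ)⁻¹ else 0)
        = ∑ n ∈ (Finset.Icc 1 Y).filter (fun n => n ∈ N.smoothNumbers), (n:ℝ)⁻¹ :=
      Finset.sum_congr rfl fun n hn => if_pos hn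
    rw [e] at h
    exact h
  have hpt : ∀ n : ℕ, (N.smoothNumbers).indicator (fA 0) n ≤
      (if n ∈ (Finset.Icc 1 Y).filter (fun n => n ∈ N.smoothNumbers) then (n:ℝ)⁻¹ else 0)
        + (Y:ℝ) ^ (-a) * (N.smoothNumbers).indicator (fA a) n := by
    intro n
    by_cases hs : n ∈ N.smoothNumbers
    · have hn0 : n ≠ 0 := Nat.ne_zero_of_mem_smoothNumbers hs
      have hnp : (0:ℝ) < n := by exact_mod_cast Nat.pos_of_ne_zero hn0
      rw [Set.indicator_of_mem hs, Set.indicator_of_mem hs, fA_zero, fA_apply]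
      by_cases hn : n ≤ Y
      · rw [if_pos (by rw [Finset.mem_filter, Finset.mem_Icc]; exact ⟨⟨by omega, hn⟩, hs⟩)]
        have : 0 ≤ (Y:ℝ) ^ (-a) * (n:ℝ) ^ (a - 1) := by positivity
        linarith
      · rw [if_neg (by rw [Finset.mem_filter, Finset.mem_Icc]; tauto), zero_add]
        have hYn : (Y:ℝ) ≤ n := by exact_mod_cast (by omega : Y ≤ n)
        have e6 : (n:ℝ)⁻¹ = (n:ℝ) ^ (-a) * (n:ℝ) ^ (a - 1) := by
          rw [← Real.rpow_add hnp]
          have : -a + (a - 1) = -1 := by ring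
          rw [this, Real.rpow_neg_one]
        rw [e6]
        apply mul_le_mul_of_nonneg_right _ (by positivity)
        exact Real.rpow_le_rpow_of_nonpos hY0 hYn (by linarith)
    · rw [Set.indicator_of_notMem hs, Set.indicator_of_notMem hs, if_neg (by rw [Finset.mem_filter]; tauto)]
      simp
  have hle := hasSum_le hpt h0 (hF.add hA)
  · have hP := prodA_le hN
    rw [← ha] at hP
    have hYa : (Y:ℝ) ^ (-a) = Real.exp (-(Real.log Y / Real.log N)) := by
      rw [Real.rpow_def_of_pos hY0, ha]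
      congr 1
      ring
    have h2 : (Y:ℝ) ^ (-a) * ∏ p ∈ N.primesBelow, (1 - fA a p)⁻¹ ≤ (Y:ℝ) ^ (-a) * ((VR N)⁻¹ * CR) :=
      mul_le_mul_of_nonneg_left hP (by positivity)
    rw [hYa] at h2 hle
    have e5 : (VR N)⁻¹ * (1 - CR * Real.exp (-(Real.log Y / Real.log N))) = (VR N)⁻¹ - Real.exp (-(Real.log Y / Real.log N)) * ((VR N)⁻¹ * CR) := by ring
    rw [e5]
    linarith

/-- Upper bound for the harmonic sum over rough numbers (Rankin). -/
theorem flat_upper {N : ℕ} (hN : 8 ≤ N) (k : ℕ) {M : ℕ} (hM : 1 ≤ M) :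
    SR N M * (1 - CR * Real.exp (-(k:ℝ))) ≤ VR N * (1 + Real.log M + k * Real.log N) := by
  classical
  have hN0 : (8:ℝ) ≤ N := by exact_mod_cast hN
  have hL0 : 0 < Real.log N := Real.log_pos (by linarith)
  have hV := VR_pos N
  have hYnat : 1 ≤ N ^ k := Nat.one_le_pow _ _ (by omega)
  have h1 := AS_lower hN hYnat
  have h2 := prod_le N M (N ^ k) hM hYnat
  have e1 : Real.log ((N ^ k : ℕ) : ℝ) = k * Real.log N := by
    push_cast; rw [Real.log_pow]
  rw [e1] at h1 h2
  have e2 : (k:ℝ) * Real.log N / Real.log N = k := by field_simp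
  rw [e2] at h1
  have hS : 0 ≤ SR N M := by
    unfold SR
    exact Finset.sum_nonneg fun n _ => by positivity
  have h3 : (VR N)⁻¹ * (1 - CR * Real.exp (-(k:ℝ))) * SR N M ≤ AS N (N ^ k) * SR N M := mul_le_mul_of_nonneg_right h1 hS
  have h4 : (VR N)⁻¹ * (1 - CR * Real.exp (-(k:ℝ))) * SR N M ≤ 1 + Real.log M + k * Real.log N := le_trans h3 h2
  have h5 : VR N * ((VR N)⁻¹ * (1 - CR * Real.exp (-(k:ℝ))) * SR N M) ≤ VR N * (1 + Real.log M + k * Real.log N) :=
    mul_le_mul_of_nonneg_left h4 hV.le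
  have e3 : VR N * ((VR N)⁻¹ * (1 - CR * Real.exp (-(k:ℝ))) * SR N M) = SR N M * (1 - CR * Real.exp (-(k:ℝ))) := by
    field_simp
  rw [e3] at h5
  exact h5

end Pool.Agent.Helper57.PP
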