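import Mathlib

/-! Grouping lemma: a finite family of reals in `[0, 1/3]` with total at most `11/28` splits into two
groups with totals at most `(1/4, 1/5)` or at most `(1/3, 1/7)`. -/

namespace Pool.Agent.Helper57.PP

open Finset

theorem grouping {ι : Type*} [DecidableEq ι] (τ : Finset ι) (u : ι → ℝ) (h0 : ∀ i ∈ τ, 0 ≤ u i)
    (h3 : ∀ i ∈ τ, u i ≤ 1/3) (hs : ∑ i ∈ τ, u i ≤ 11/28) :
    ∃ A ⊆ τ, ((∑ i ∈ A, u i ≤ 1/4 ∧ ∑ i ∈ τ \ A, u i ≤ 1/5) ∨
      (∑ i ∈ A, u i ≤ 1/3 ∧ ∑ i ∈ τ \ A, u i ≤ 1/7)) := by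
  rcases τ.eq_empty_or_nonempty with rfl | hne
  · exact ⟨∅, Finset.Subset.refl _, Or.inl (by norm_num)⟩
  obtain ⟨m, hm, hmax⟩ := τ.exists_max_image u hne
  have hsplit : ∀ A ⊆ τ, ∑ i ∈ τ \ A, u i = ∑ i ∈ τ, u i - ∑ i ∈ A, u i := by
    intro A hA
    have := Finset.sum_sdiff (f := u) hA
    linarith
  set s := ∑ i ∈ τ, u i with hsdef
  have hm3 := h3 m hm
  have hm0 := h0 m hm
  have hsub : ({m} : Finset ι) ⊆ τ := Finset.singleton_subset_iff.2 hm
  by_cases c1 : 1/4 ≤ u m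
  · refine ⟨{m}, hsub, Or.inr ?_⟩
    rw [hsplit _ hsub, Finset.sum_singleton]
    constructor <;> linarith
  by_cases c2 : s - 1/5 ≤ u m
  · refine ⟨{m}, hsub, Or.inl ?_⟩
    rw [hsplit _ hsub, Finset.sum_singleton]
    constructor <;> linarith
  push Not at c1 c2
  -- a maximal subset containing `m` with sum below `s - 1/5`
  classical
  set F := τ.powerset.filter (fun A => m ∈ A ∧ ∑ i ∈ A, u i < s - 1/5) with hF
  have hFne : F.Nonempty := by
    refine ⟨{m}, ?_⟩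
    rw [hF, Finset.mem_filter, Finset.mem_powerset]
    exact ⟨hsub, Finset.mem_singleton_self m, by rw [Finset.sum_singleton]; exact c2⟩
  obtain ⟨A, hAF, hAmax⟩ := F.exists_max_image Finset.card hFne
  rw [hF, Finset.mem_filter, Finset.mem_powerset] at hAF
  obtain ⟨hAτ, hmA, hAs⟩ := hAF
  have hex : ∃ x ∈ τ, x ∉ A := by
    by_contra hc
    push Not at hc
    have : A = τ := Finset.Subset.antisymm hAτ hc
    rw [this] at hAs
    linarith
  obtain ⟨x, hx, hxA⟩ := hex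
  have hins : insert x A ⊆ τ := Finset.insert_subset hx hAτ
  have hsum : ∑ i ∈ insert x A, u i = u x + ∑ i ∈ A, u i := Finset.sum_insert hxA
  have hge : s - 1/5 ≤ u x + ∑ i ∈ A, u i := by
    by_contra hc
    push Not at hc
    have hmem : insert x A ∈ F := by
      rw [hF, Finset.mem_filter, Finset.mem_powerset]
      exact ⟨hins, Finset.mem_insert_of_mem hmA, by rw [hsum]; exact hc⟩
    have := hAmax _ hmem
    rw [Finset.card_insert_of_notMem hxA] at this
    omega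
  have hxm : u x ≤ u m := hmax x hx
  have hmA2 : u m ≤ ∑ i ∈ A, u i := Finset.single_le_sum (fun i hi => h0 i (hAτ hi)) hmA
  by_cases c3 : u x + ∑ i ∈ A, u i ≤ 1/4
  · refine ⟨insert x A, hins, Or.inl ?_⟩
    rw [hsplit _ hins, hsum]
    constructor <;> linarith
  by_cases c4 : u x + ∑ i ∈ A, u i ≤ 1/3
  · refine ⟨insert x A, hins, Or.inr ?_⟩
    rw [hsplit _ hins, hsum]
    constructor <;> linarith
  push Not at c3 c4
  refine ⟨τ \ A, Finset.sdiff_subset, Or.inl ?_⟩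
  rw [Finset.sdiff_sdiff_eq_self hAτ, hsplit _ hAτ]
  constructor <;> linarith

end Pool.Agent.Helper57.PP
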