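import Mathlib

/-! Grouping lemma up to total size `5/12`: a finite family of nonnegative reals with total at most `5/12`, all at most `1/3`,
such that an element above `1/4` leaves at most `1/7` and an element in `(1/5, 1/4]` leaves at most `1/5`, splits in two groups with
totals at most `(1/4, 1/5)` or at most `(1/3, 1/7)`. -/

namespace Pool.Agent.Helper57.PP

open Finset

/-- greedy: subset sums of small elements hit a window -/
theorem greedy {ι : Type*} [DecidableEq ι] (u : ι → ℝ) {l lo hi a : ℝ} (hl : lo + l ≤ hi) (ha : a ≤ hi) :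
    ∀ E : Finset ι, (∀ i ∈ E, u i ≤ l) → lo ≤ a + ∑ i ∈ E, u i → ∃ D ⊆ E, lo ≤ a + ∑ i ∈ D, u i ∧ a + ∑ i ∈ D, u i ≤ hi := by
  intro E
  induction E using Finset.induction_on with
  | empty =>
    intro _ h
    exact ⟨∅, Finset.Subset.refl _, h, by simpa using ha⟩
  | insert x E hx ih =>
    intro hE h
    by_cases hc : lo ≤ a + ∑ i ∈ E, u i
    · obtain ⟨D, hD, h1, h2⟩ := ih (fun i hi => hE i (Finset.mem_insert_of_mem hi)) hc
      exact ⟨D, hD.trans (Finset.subset_insert x E), h1, h2⟩
    · push Not at hc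
      refine ⟨insert x E, Finset.Subset.refl _, h, ?_⟩
      have := hE x (Finset.mem_insert_self x E)
      rw [Finset.sum_insert hx]
      linarith

/-- total exactly `5/12`, all elements at most `1/5` -/
theorem group0 {ι : Type*} [DecidableEq ι] (τ : Finset ι) (u : ι → ℝ) (h0 : ∀ i ∈ τ, 0 ≤ u i)
    (h5 : ∀ i ∈ τ, u i ≤ 1/5) (hs : ∑ i ∈ τ, u i = 5/12) :
    ∃ A ⊆ τ, ((∑ i ∈ A, u i ≤ 1/4 ∧ ∑ i ∈ τ \ A, u i ≤ 1/5) ∨
      (∑ i ∈ A, u i ≤ 1/3 ∧ ∑ i ∈ τ \ A, u i ≤ 1/7)) := by
  by_contra hcon
  push Not at hcon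
  have hsd : ∀ A ⊆ τ, ∑ i ∈ τ \ A, u i = 5/12 - ∑ i ∈ A, u i := by
    intro A hA
    have := Finset.sum_sdiff (f := u) hA
    linarith
  have w1 : ∀ A ⊆ τ, 13/60 ≤ ∑ i ∈ A, u i → 1/4 < ∑ i ∈ A, u i := by
    intro A hA h
    by_contra hc
    push Not at hc
    have := (hcon A hA).1 hc
    rw [hsd A hA] at this
    linarith
  have w2 : ∀ A ⊆ τ, 23/84 ≤ ∑ i ∈ A, u i → 1/3 < ∑ i ∈ A, u i := by
    intro A hA h
    by_contra hc
    push Not at hc
    have := (hcon A hA).2 hc
    rw [hsd A hA] at this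
    linarith
  have w1' : ∀ A ⊆ τ, 1/6 ≤ ∑ i ∈ A, u i → 1/5 < ∑ i ∈ A, u i := by
    intro A hA h
    by_contra hc
    push Not at hc
    have := (hcon (τ \ A) Finset.sdiff_subset).1 (by rw [hsd A hA]; linarith)
    rw [Finset.sdiff_sdiff_eq_self hA] at this
    linarith
  have w2' : ∀ A ⊆ τ, 1/12 ≤ ∑ i ∈ A, u i → 1/7 < ∑ i ∈ A, u i := by
    intro A hA h
    by_contra hc
    push Not at hc
    have := (hcon (τ \ A) Finset.sdiff_subset).2 (by rw [hsd A hA]; linarith)
    rw [Finset.sdiff_sdiff_eq_self hA] at this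
    linarith
  -- single elements
  have hsing : ∀ i ∈ τ, u i < 1/6 := by
    intro i hi
    by_contra hc
    push Not at hc
    have := w1' {i} (Finset.singleton_subset_iff.2 hi) (by rw [Finset.sum_singleton]; exact hc)
    rw [Finset.sum_singleton] at this
    linarith [h5 i hi]
  have hsing2 : ∀ i ∈ τ, 1/12 ≤ u i → 1/7 < u i := by
    intro i hi hc
    have := w2' {i} (Finset.singleton_subset_iff.2 hi) (by rw [Finset.sum_singleton]; exact hc)
    rwa [Finset.sum_singleton] at this
  set M := τ.filter (fun i => 1/12 ≤ u i) with hM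
  set B := τ.filter (fun i => 5/84 < u i ∧ u i < 1/12) with hB
  set Y := τ.filter (fun i => u i ≤ 5/84) with hY
  have hMτ : M ⊆ τ := Finset.filter_subset _ _
  have hBτ : B ⊆ τ := Finset.filter_subset _ _
  have hYτ : Y ⊆ τ := Finset.filter_subset _ _
  have hsum : ∑ i ∈ M, u i + ∑ i ∈ B, u i + ∑ i ∈ Y, u i = 5/12 := by
    rw [← hs]
    have e1 := Finset.sum_filter_add_sum_filter_not τ (fun i => 1/12 ≤ u i) u
    have e2 := Finset.sum_filter_add_sum_filter_not (τ.filter (fun i => ¬ 1/12 ≤ u i)) (fun i => 5/84 < u i) u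
    have e3 : (τ.filter (fun i => ¬ 1/12 ≤ u i)).filter (fun i => 5/84 < u i) = B := by
      rw [Finset.filter_filter]
      apply Finset.filter_congr
      intro i _
      constructor
      · rintro ⟨a, b⟩; exact ⟨b, not_le.1 a⟩
      · rintro ⟨a, b⟩; exact ⟨not_le.2 b, a⟩
    have e4 : (τ.filter (fun i => ¬ 1/12 ≤ u i)).filter (fun i => ¬ 5/84 < u i) = Y := by
      rw [Finset.filter_filter]
      apply Finset.filter_congr
      intro i _
      constructor
      · rintro ⟨a, b⟩; exact not_lt.1 b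
      · intro a; exact ⟨not_le.2 (by linarith), not_lt.2 a⟩
    rw [e3, e4] at e2
    linarith
  -- at most one element in `M`
  have hMcard : M.card ≤ 1 := by
    by_contra hc
    push Not at hc
    obtain ⟨i, hi, j, hj, hij⟩ := Finset.one_lt_card.1 hc
    have hi' := Finset.mem_filter.1 hi
    have hj' := Finset.mem_filter.1 hj
    have := w2 {i, j} (by
      intro x hx
      rw [Finset.mem_insert, Finset.mem_singleton] at hx
      rcases hx with rfl | rfl
      · exact hi'.1
      · exact hj'.1) (by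
      rw [Finset.sum_pair hij]
      linarith [hsing2 i hi'.1 hi'.2, hsing2 j hj'.1 hj'.2])
    rw [Finset.sum_pair hij] at this
    linarith [hsing i hi'.1, hsing j hj'.1]
  -- tiny elements have small total
  have hYsum : ∑ i ∈ Y, u i < 1/12 := by
    by_contra hc
    push Not at hc
    obtain ⟨D, hD, d1, d2⟩ := greedy u (l := 5/84) (lo := 1/12) (hi := 1/7) (a := 0) (by norm_num) (by norm_num) Y
      (fun i hi => (Finset.mem_filter.1 hi).2) (by linarith)
    have := w2' D (hD.trans hYτ) (by linarith)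
    linarith
  -- pairs of big elements
  have hpair : ∀ i ∈ B, ∀ j ∈ B, i ≠ j → 1/7 < u i + u j := by
    intro i hi j hj hij
    have hi' := Finset.mem_filter.1 hi
    have hj' := Finset.mem_filter.1 hj
    have := w2' {i, j} (by
      intro x hx
      rw [Finset.mem_insert, Finset.mem_singleton] at hx
      rcases hx with rfl | rfl
      · exact hi'.1
      · exact hj'.1) (by
      rw [Finset.sum_pair hij]
      linarith [hi'.2.1, hj'.2.1])
    rwa [Finset.sum_pair hij] at this
  have hBlt : ∑ i ∈ B, u i ≤ B.card * (1/12) := by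
    have := Finset.sum_le_card_nsmul B u (1/12) (fun i hi => (Finset.mem_filter.1 hi).2.2.le)
    rwa [nsmul_eq_mul] at this
  have hMub : ∑ i ∈ M, u i ≤ 1/6 := by
    rcases Nat.lt_or_ge M.card 1 with h | h
    · have : M = ∅ := Finset.card_eq_zero.1 (by omega)
      rw [this, Finset.sum_empty]; norm_num
    · obtain ⟨m, hm⟩ := Finset.card_eq_one.1 (le_antisymm hMcard h)
      rw [hm, Finset.sum_singleton]
      have : m ∈ M := by rw [hm]; exact Finset.mem_singleton_self m
      exact (hsing m (hMτ this)).le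
  have hB3 : 3 ≤ B.card := by
    by_contra hc
    push Not at hc
    have : (B.card : ℝ) ≤ 2 := by exact_mod_cast (by omega : B.card ≤ 2)
    have hY0 := hYsum
    -- strict: sum over B < card * 1/12 if nonempty; use strictness of the tiny total
    linarith
  -- lower bound for the sum of the big ones
  have hBlow : ∀ C ⊆ B, 1 ≤ C.card → ((C.card : ℝ) - 1) / 14 + 5/84 ≤ ∑ i ∈ C, u i := by
    intro C hC hcard
    obtain ⟨m, hm, hmin⟩ := C.exists_min_image u (Finset.card_pos.1 hcard)
    have e1 : ∑ i ∈ C, u i = u m + ∑ i ∈ C.erase m, u i := (Finset.add_sum_erase C u hm).symm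
    have e2 : ((C.erase m).card : ℝ) * (1/14) ≤ ∑ i ∈ C.erase m, u i := by
      have := Finset.card_nsmul_le_sum (C.erase m) u (1/14) (fun i hi => by
        have hne := Finset.ne_of_mem_erase hi
        have hiC := Finset.mem_of_mem_erase hi
        have h1 := hpair i (hC hiC) m (hC hm) hne
        have h2 := hmin i hiC
        linarith)
      rwa [nsmul_eq_mul] at this
    have e3 : ((C.erase m).card : ℝ) = (C.card : ℝ) - 1 := by
      rw [Finset.card_erase_of_mem hm]
      push_cast [Nat.cast_sub hcard]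
      ring
    have e4 := (Finset.mem_filter.1 (hC hm)).2.1
    rw [e1]
    rw [e3] at e2
    linarith
  -- the tiny elements are below `1/84`
  have hY84 : ∀ y ∈ Y, u y ≤ 1/84 := by
    intro y hy
    obtain ⟨i, hi, j, hj, hij⟩ := Finset.one_lt_card.1 (by omega : 1 < B.card)
    have key : ∀ k ∈ B, 1/14 < u k → u y ≤ 1/84 := by
      intro k hk hk1
      have hk' := Finset.mem_filter.1 hk
      have hy' := Finset.mem_filter.1 hy
      have hne : k ≠ y := by
        rintro rfl
        linarith [hk'.2.1, hy'.2]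
      by_contra hc
      push Not at hc
      have := w2' {k, y} (by
        intro x hx
        rw [Finset.mem_insert, Finset.mem_singleton] at hx
        rcases hx with rfl | rfl
        · exact hk'.1
        · exact hy'.1) (by
        rw [Finset.sum_pair hne]
        linarith)
      rw [Finset.sum_pair hne] at this
      linarith [hk'.2.2, hy'.2]
    have hp := hpair i hi j hj hij
    by_cases hi1 : 1/14 < u i
    · exact key i hi hi1
    · exact key j hj (by linarith)
  -- a triple of big elements such that the other elements (except the tiny ones) have total at most `1/6`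
  obtain ⟨C, hCB, hC3, hCo⟩ : ∃ C ⊆ B, C.card = 3 ∧ ∑ i ∈ M, u i + ∑ i ∈ B, u i - ∑ i ∈ C, u i ≤ 1/6 := by
    obtain ⟨C, hCB, hC3⟩ := Finset.exists_subset_card_eq hB3
    refine ⟨C, hCB, hC3, ?_⟩
    have hBC : ∑ i ∈ B, u i = ∑ i ∈ B \ C, u i + ∑ i ∈ C, u i := (Finset.sum_sdiff hCB).symm
    have hBCc : ((B \ C).card : ℝ) = B.card - 3 := by
      rw [Finset.card_sdiff_of_subset hCB, hC3]
      push_cast [Nat.cast_sub hB3]
      ring
    have hBCu : ∑ i ∈ B \ C, u i ≤ ((B \ C).card : ℝ) * (1/12) := by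
      have := Finset.sum_le_card_nsmul (B \ C) u (1/12) (fun i hi =>
        (Finset.mem_filter.1 ((Finset.sdiff_subset : B \ C ⊆ B) hi)).2.2.le)
      rwa [nsmul_eq_mul] at this
    have hBl := hBlow B (Finset.Subset.refl _) (by omega)
    have hY0 : 0 ≤ ∑ i ∈ Y, u i := Finset.sum_nonneg fun i hi => h0 i (hYτ hi)
    rcases Nat.lt_or_ge M.card 1 with h | h
    · have hM0 : M = ∅ := Finset.card_eq_zero.1 (by omega)
      rw [hM0, Finset.sum_empty] at hsum ⊢
      -- card B ≤ 5
      have h5' : B.card ≤ 5 := by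
        by_contra hc
        push Not at hc
        have h6 : (6:ℝ) ≤ B.card := by exact_mod_cast hc
        have hcard6 : (6:ℕ) ≤ B.card := hc
        -- strictness through a subset of six elements: use pairs
        obtain ⟨C6, hC6, hC6c⟩ := Finset.exists_subset_card_eq hcard6
        have h7 : ∑ i ∈ C6, u i ≤ ∑ i ∈ B, u i :=
          Finset.sum_le_sum_of_subset_of_nonneg hC6 (fun i hi _ => h0 i (hBτ hi))
        have h8 := hBlow C6 hC6 (by omega)
        rw [hC6c] at h8
        obtain ⟨m, hm, hmin⟩ := C6.exists_min_image u (Finset.card_pos.1 (by omega))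
        have e1 : ∑ i ∈ C6, u i = u m + ∑ i ∈ C6.erase m, u i := (Finset.add_sum_erase C6 u hm).symm
        have e2 : ((C6.erase m).card : ℝ) * (1/14) ≤ ∑ i ∈ C6.erase m, u i := by
          have := Finset.card_nsmul_le_sum (C6.erase m) u (1/14) (fun i hi => by
            have hne := Finset.ne_of_mem_erase hi
            have hiC := Finset.mem_of_mem_erase hi
            have h1 := hpair i (hC6 hiC) m (hC6 hm) hne
            have h2 := hmin i hiC
            linarith)
          rwa [nsmul_eq_mul] at this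
        have e3 : ((C6.erase m).card : ℝ) = 5 := by
          rw [Finset.card_erase_of_mem hm, hC6c]; norm_num
        have e4 := (Finset.mem_filter.1 (hC6 hm)).2.1
        rw [e3] at e2
        linarith
      have h5r : (B.card : ℝ) ≤ 5 := by exact_mod_cast h5'
      rw [hBCc] at hBCu
      linarith
    · obtain ⟨m, hm⟩ := Finset.card_eq_one.1 (le_antisymm hMcard h)
      have hmM : m ∈ M := by rw [hm]; exact Finset.mem_singleton_self m
      have hm' := Finset.mem_filter.1 hmM
      have hm7 := hsing2 m hm'.1 hm'.2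
      have hm6 := hsing m hm'.1
      rw [hm, Finset.sum_singleton] at hsum ⊢
      have h3' : B.card = 3 := by
        by_contra hc
        have h4 : 4 ≤ B.card := by omega
        obtain ⟨C4, hC4, hC4c⟩ := Finset.exists_subset_card_eq h4
        have h7 : ∑ i ∈ C4, u i ≤ ∑ i ∈ B, u i :=
          Finset.sum_le_sum_of_subset_of_nonneg hC4 (fun i hi _ => h0 i (hBτ hi))
        have h8 := hBlow C4 hC4 (by omega)
        rw [hC4c] at h8
        push_cast at h8
        linarith
      have : B \ C = ∅ := by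
        rw [← Finset.card_eq_zero, Finset.card_sdiff_of_subset hCB, hC3, h3']
      rw [this, Finset.sum_empty] at hBC
      linarith
  have hCτ := hCB.trans hBτ
  have hC14 : ∑ i ∈ C, u i ≤ 1/4 := by
    have := Finset.sum_le_card_nsmul C u (1/12) (fun i hi => (Finset.mem_filter.1 (hCB hi)).2.2.le)
    rw [nsmul_eq_mul, hC3] at this
    push_cast at this
    linarith
  obtain ⟨D, hD, d1, d2⟩ := greedy u (l := 1/84) (lo := 13/60) (hi := 1/4) (a := ∑ i ∈ C, u i) (by norm_num) hC14 Y hY84
    (by linarith)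
  have hdisj : Disjoint C D := by
    rw [Finset.disjoint_left]
    intro x hxC hxD
    have a1 := (Finset.mem_filter.1 (hCB hxC)).2.1
    have a2 := (Finset.mem_filter.1 (hD hxD)).2
    linarith
  have := w1 (C ∪ D) (Finset.union_subset hCτ (hD.trans hYτ)) (by rw [Finset.sum_union hdisj]; exact d1)
  rw [Finset.sum_union hdisj] at this
  linarith

/-- the grouping lemma -/
theorem grouping2 {ι : Type*} [DecidableEq ι] (τ : Finset ι) (u : ι → ℝ) (h0 : ∀ i ∈ τ, 0 ≤ u i)
    (hs : ∑ i ∈ τ, u i ≤ 5/12) (h3 : ∀ i ∈ τ, u i ≤ 1/3)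
    (h4 : ∀ i ∈ τ, 1/4 < u i → ∑ j ∈ τ, u j - u i ≤ 1/7)
    (h5 : ∀ i ∈ τ, 1/5 < u i → u i ≤ 1/4 → ∑ j ∈ τ, u j - u i ≤ 1/5) :
    ∃ A ⊆ τ, ((∑ i ∈ A, u i ≤ 1/4 ∧ ∑ i ∈ τ \ A, u i ≤ 1/5) ∨
      (∑ i ∈ A, u i ≤ 1/3 ∧ ∑ i ∈ τ \ A, u i ≤ 1/7)) := by
  by_cases hc : ∃ i ∈ τ, 1/5 < u i
  · obtain ⟨i, hi, hi5⟩ := hc
    have hsub : ({i} : Finset ι) ⊆ τ := Finset.singleton_subset_iff.2 hi
    have hsd : ∑ j ∈ τ \ {i}, u j = ∑ j ∈ τ, u j - u i := by
      have := Finset.sum_sdiff (f := u) hsub
      rw [Finset.sum_singleton] at this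
      linarith
    by_cases h : u i ≤ 1/4
    · exact ⟨{i}, hsub, Or.inl ⟨by rw [Finset.sum_singleton]; exact h, by rw [hsd]; exact h5 i hi hi5 h⟩⟩
    · push Not at h
      exact ⟨{i}, hsub, Or.inr ⟨by rw [Finset.sum_singleton]; exact h3 i hi, by rw [hsd]; exact h4 i hi h⟩⟩
  · push Not at hc
    -- pad with 35 elements
    set s := ∑ i ∈ τ, u i with hsdef
    have hs0 : 0 ≤ s := Finset.sum_nonneg h0
    set u' : ι ⊕ Fin 35 → ℝ := Sum.elim u (fun _ => (5/12 - s) / 35) with hu'
    set τ' : Finset (ι ⊕ Fin 35) := τ.disjSum Finset.univ with hτ'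
    have hsum' : ∑ i ∈ τ', u' i = 5/12 := by
      rw [hτ', Finset.sum_disjSum]
      simp only [hu', Sum.elim_inl, Sum.elim_inr, Finset.sum_const, Finset.card_univ, Fintype.card_fin, nsmul_eq_mul]
      push_cast
      linarith
    have h0' : ∀ i ∈ τ', 0 ≤ u' i := by
      intro i hi
      rw [hτ', Finset.mem_disjSum] at hi
      rcases hi with ⟨a, ha, rfl⟩ | ⟨b, _, rfl⟩
      · exact h0 a ha
      · simp only [hu', Sum.elim_inr]
        have : 0 ≤ 5/12 - s := by linarith
        positivity
    have h5' : ∀ i ∈ τ', u' i ≤ 1/5 := by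
      intro i hi
      rw [hτ', Finset.mem_disjSum] at hi
      rcases hi with ⟨a, ha, rfl⟩ | ⟨b, _, rfl⟩
      · exact hc a ha
      · simp only [hu', Sum.elim_inr]
        linarith
    obtain ⟨A', hA', hg⟩ := group0 τ' u' h0' h5' hsum'
    set A := τ.filter (fun i => Sum.inl i ∈ A') with hA
    have hAs : A ⊆ τ := Finset.filter_subset _ _
    have e1 : ∑ i ∈ A, u i ≤ ∑ i ∈ A', u' i := by
      have : ∑ i ∈ A, u i = ∑ i ∈ A.map ⟨Sum.inl, Sum.inl_injective⟩, u' i := by
        rw [Finset.sum_map]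
        rfl
      rw [this]
      apply Finset.sum_le_sum_of_subset_of_nonneg
      · intro x hx
        rw [Finset.mem_map] at hx
        obtain ⟨i, hi, rfl⟩ := hx
        exact (Finset.mem_filter.1 hi).2
      · intro i hi _
        exact h0' i (hA' hi)
    have e2 : ∑ i ∈ τ \ A, u i ≤ ∑ i ∈ τ' \ A', u' i := by
      have : ∑ i ∈ τ \ A, u i = ∑ i ∈ (τ \ A).map ⟨Sum.inl, Sum.inl_injective⟩, u' i := by
        rw [Finset.sum_map]
        rfl
      rw [this]
      apply Finset.sum_le_sum_of_subset_of_nonneg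
      · intro x hx
        rw [Finset.mem_map] at hx
        obtain ⟨i, hi, rfl⟩ := hx
        rw [Finset.mem_sdiff, hA, Finset.mem_filter] at hi
        rw [Finset.mem_sdiff]
        refine ⟨?_, ?_⟩
        · rw [hτ', Finset.mem_disjSum]
          exact Or.inl ⟨i, hi.1, rfl⟩
        · intro h
          exact hi.2 ⟨hi.1, h⟩
      · intro i hi _
        exact h0' i (Finset.sdiff_subset hi)
    refine ⟨A, hAs, ?_⟩
    rcases hg with ⟨g1, g2⟩ | ⟨g1, g2⟩
    · exact Or.inl ⟨by linarith, by linarith⟩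
    · exact Or.inr ⟨by linarith, by linarith⟩

end Pool.Agent.Helper57.PP
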