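import Pool.Agent.Helper69.PP.C2
import Pool.Agent.Helper57.PP.Group2

/-!
# PP, constant `0.53`: membership in `NB` up to `T^(5/12 - 5e)`
-/

open MeasureTheory Set Filter Topology
open Pool.Agent.Helper57.Zeta Pool.Agent.Helper57.PC Pool.Agent.Helper57.LH Pool.Agent.Helper78.SG
open Pool.Agent.Helper4.SH
open Pool.Agent.Helper69.PP

namespace Pool.Agent.Helper57.PP

/-- a small slack in the sizes absorbs the rounding to cells -/
theorem par_cell (P : Par) : (P.K : ℝ) / P.G ≤ P.e / 4 ∧ 1 / (P.G : ℝ) ≤ P.e / 4 := by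
  have hG : (0 : ℝ) < P.G := by exact_mod_cast P.hG0
  have h1 := P.hG
  have hK : (1 : ℝ) ≤ P.K := by
    unfold Par.K
    have h2 : (0 : ℝ) < 1 / P.δ := by
      have := P.hδ
      positivity
    exact_mod_cast Nat.ceil_pos.2 h2
  have h3 : (2 * (P.K : ℝ) + 2) / P.G ≤ P.e / 2 := h1
  rw [div_le_iff₀ hG] at h3
  constructor
  · rw [div_le_iff₀ hG]
    linarith
  · rw [div_le_iff₀ hG]
    linarith

/-- good numbers `n ≤ T^(5/12 - 5e)` are denominators unless they have a large prime factor -/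
theorem memNB {P : Par} {T : ℝ} (hT : 1 < T) {n : ℕ} (h : Gd P T n) (hs : yy T n ≤ 5 / 12 - 5 * P.e)
    (h3 : ∀ p ∈ n.primeFactors, yy T p ≤ 1 / 3 - 4 * P.e)
    (h4 : ∀ p ∈ n.primeFactors, 1 / 4 - 4 * P.e < yy T p → yy T n - yy T p ≤ 1 / 7 - 4 * P.e)
    (h5 : ∀ p ∈ n.primeFactors, 1 / 5 - 4 * P.e < yy T p → yy T p ≤ 1 / 4 - 4 * P.e →
      yy T n - yy T p ≤ 1 / 5 - 4 * P.e) : n ∈ NB P T := by
  rw [mem_NB]
  refine ⟨h, ?_⟩
  obtain ⟨hK, hG1⟩ := par_cell P
  have hG : (0 : ℝ) < P.G := by exact_mod_cast P.hG0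
  have hL : 0 < Real.log T := Real.log_pos hT
  have he := P.he
  have he1 := P.he1
  -- sizes of cells
  have hcell : ∀ l ∈ ty P.G T n, ∃ p ∈ n.primeFactors, yy T p ≤ (l : ℝ) / P.G ∧ (l : ℝ) / P.G ≤ yy T p + P.e / 4 := by
    intro l hl
    unfold ty at hl
    rw [Finset.mem_image] at hl
    obtain ⟨p, hp, rfl⟩ := hl
    refine ⟨p, hp, ?_, ?_⟩
    · rw [le_div_iff₀ hG]
      unfold ce yy
      have := Nat.le_ceil ((P.G : ℝ) * Real.log p / Real.log T)
      calc Real.log p / Real.log T * P.G = P.G * Real.log p / Real.log T := by ring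
        _ ≤ _ := this
    · rw [div_le_iff₀ hG]
      have hp1 : (1 : ℝ) ≤ p := by exact_mod_cast (Nat.prime_of_mem_primeFactors hp).one_lt.le
      have hlp := Real.log_nonneg hp1
      have h1 : (⌈(P.G : ℝ) * Real.log p / Real.log T⌉₊ : ℝ) < (P.G : ℝ) * Real.log p / Real.log T + 1 :=
        Nat.ceil_lt_add_one (by positivity)
      unfold ce yy
      have h2 : (1 : ℝ) ≤ P.e / 4 * P.G := by
        rw [div_le_iff₀ hG] at hG1
        exact hG1
      calc (⌈(P.G : ℝ) * Real.log p / Real.log T⌉₊ : ℝ) ≤ (P.G : ℝ) * Real.log p / Real.log T + 1 := h1.le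
        _ ≤ (P.G : ℝ) * Real.log p / Real.log T + P.e / 4 * P.G := by linarith
        _ = _ := by ring
  have hUS : (US (ty P.G T n) : ℝ) / P.G ≤ yy T n + P.e / 4 := by
    have h1 := US_le_log hT h
    rw [div_le_iff₀ hG]
    unfold yy
    rw [div_le_iff₀ hG] at hK
    calc (US (ty P.G T n) : ℝ) ≤ P.G * Real.log n / Real.log T + P.K := h1
      _ ≤ P.G * Real.log n / Real.log T + P.e / 4 * P.G := by linarith
      _ = _ := by ring
  have hsum : ∀ A : Finset ℕ, ∑ l ∈ A, (1 + 8 * P.e) * ((l : ℝ) / P.G) = (1 + 8 * P.e) * ((US A : ℝ) / P.G) := by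
    intro A
    rw [← Finset.mul_sum, ← Finset.sum_div]
    unfold US
    push_cast
    rfl
  have hkey := grouping2 (ty P.G T n) (fun l : ℕ => (1 + 8 * P.e) * ((l : ℝ) / P.G)) ?_ ?_ ?_ ?_ ?_
  · obtain ⟨A, hA, hA2⟩ := hkey
    have hconv : ∀ (B : Finset ℕ) (m : ℝ), 3 ≤ m → m ≤ 7 →
        ∑ l ∈ B, (1 + 8 * P.e) * ((l : ℝ) / P.G) ≤ 1 / m → (US B : ℝ) ≤ (1 / m - P.e) * P.G := by
      intro B m hm3 hm7 hB
      rw [hsum B] at hB
      have hm0 : 0 < m := by linarith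
      obtain ⟨y, hy⟩ : ∃ y : ℝ, y = 1 / m := ⟨_, rfl⟩
      rw [← hy] at hB ⊢
      have hy1 : 1 / 7 ≤ y := by
        rw [hy]
        exact one_div_le_one_div_of_le hm0 hm7
      have hy2 : 1 ≤ 7 * y := by linarith
      rw [← div_le_iff₀ hG]
      by_contra hcon
      push Not at hcon
      have h8 : (1 + 8 * P.e) * (y - P.e) < (1 + 8 * P.e) * ((US B : ℝ) / P.G) :=
        mul_lt_mul_of_pos_left hcon (by linarith)
      nlinarith
    refine ⟨A, hA, ?_⟩
    rcases hA2 with hA2 | hA2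
    · exact Or.inr ⟨hconv A 4 (by norm_num) (by norm_num) hA2.1, hconv _ 5 (by norm_num) (by norm_num) hA2.2⟩
    · exact Or.inl ⟨hconv A 3 (by norm_num) (by norm_num) hA2.1, hconv _ 7 (by norm_num) (by norm_num) hA2.2⟩
  · intro l _
    positivity
  · rw [hsum]
    nlinarith
  · intro l hl
    obtain ⟨p, hp, _, h7⟩ := hcell l hl
    have h8 := h3 p hp
    show (1 + 8 * P.e) * ((l : ℝ) / P.G) ≤ 1 / 3
    nlinarith
  · intro l hl hl4
    obtain ⟨p, hp, h6, h7⟩ := hcell l hl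
    change 1 / 4 < (1 + 8 * P.e) * ((l : ℝ) / P.G) at hl4
    show _ - (1 + 8 * P.e) * ((l : ℝ) / P.G) ≤ 1 / 7
    rw [hsum]
    have h8 : 1 / 4 - 4 * P.e < yy T p := by
      by_contra hcon
      push Not at hcon
      nlinarith
    have h9 := h4 p hp h8
    nlinarith
  · intro l hl hl5 hl4
    obtain ⟨p, hp, h6, h7⟩ := hcell l hl
    change 1 / 5 < (1 + 8 * P.e) * ((l : ℝ) / P.G) at hl5
    show _ - (1 + 8 * P.e) * ((l : ℝ) / P.G) ≤ 1 / 5
    rw [hsum]
    have h8 : 1 / 5 - 4 * P.e < yy T p := by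
      by_contra hcon
      push Not at hcon
      nlinarith
    have h9 : yy T n - yy T p ≤ 1 / 5 - 4 * P.e := by
      by_cases h10 : yy T p ≤ 1 / 4 - 4 * P.e
      · exact h5 p hp h8 h10
      · push Not at h10
        have := h4 p hp h10
        linarith
    nlinarith

end Pool.Agent.Helper57.PP
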