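import Pool.Agent.Helper69.PP.A3a
import Pool.Agent.Helper69.PP.A3b
import Pool.Agent.Helper69.PP.A3c
import Pool.Agent.Helper57.PP.Mem53
import Pool.Agent.Helper57.PP.Box53

/-!
# PP, constant `0.53`: the sum over the denominators
-/

open MeasureTheory Set Filter Topology
open Pool.Agent.Helper57.Zeta Pool.Agent.Helper57.PC Pool.Agent.Helper57.LH Pool.Agent.Helper78.SG
open Pool.Agent.Helper4.SH
open Pool.Agent.Helper69.PP

namespace Pool.Agent.Helper57.PP

/-- `W(n) ≤ 2 c y_n` -/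
theorem Wn_le_yy {c T : ℝ} (hc : 0 ≤ c) (hT : 1 < T) {n : ℕ} (hn : n ≠ 0) : Wn c T n ≤ 2 * c * yy T n := by
  have hL : 0 < Real.log T := Real.log_pos hT
  have h1 : Wn c T n ≤ ∑ p ∈ n.primeFactors, 2 * c * yy T p := by
    unfold Wn
    refine Finset.sum_le_sum fun p _ => ?_
    have hy : 0 ≤ yy T p := div_nonneg (Real.log_natCast_nonneg p) hL.le
    have h2 : SBc c (yy T p) ≤ c := (le_abs_self _).trans (SBc_le hc _)
    calc 2 * yy T p * SBc c (yy T p) ≤ 2 * yy T p * c := mul_le_mul_of_nonneg_left h2 (by positivity)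
      _ = _ := by ring
  refine h1.trans ?_
  rw [← Finset.mul_sum]
  apply mul_le_mul_of_nonneg_left _ (by positivity)
  unfold yy
  rw [← Finset.sum_div]
  apply div_le_div_of_nonneg_right _ hL.le
  have h3 : ∑ p ∈ n.primeFactors, Real.log (p : ℝ) = Real.log ((∏ p ∈ n.primeFactors, p : ℕ) : ℝ) := by
    push_cast
    rw [Real.log_prod]
    intro p hp
    exact_mod_cast (Nat.prime_of_mem_primeFactors hp).ne_zero
  rw [h3]
  have h4 : ∏ p ∈ n.primeFactors, p ≤ n := Nat.le_of_dvd (Nat.pos_of_ne_zero hn) (Nat.prod_primeFactors_dvd n)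
  have h5 : 0 < ∏ p ∈ n.primeFactors, p := Finset.prod_pos fun p hp => (Nat.prime_of_mem_primeFactors hp).pos
  exact Real.log_le_log (by exact_mod_cast h5) (by exact_mod_cast h4)

/-- the measure of a bad region -/
noncomputable def RG (k : ℕ) (s a w : ℝ) : ℝ :=
  ∑ i ∈ Finset.range k, (((s - w - a) / k) / (a + i * ((s - w - a) / k))) * (s - w - (a + i * ((s - w - a) / k)))

/-- a region -/
theorem region' {N k : ℕ} {T s a w v ε : ℝ} (hT : 1 < T) (hs1 : s ≤ 1) (ha0 : 1 / 10 ≤ a) (hk : 0 < k)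
    (hw : 0 ≤ w) (hws : a + w ≤ s) (hv : 0 ≤ v) (hε : 0 ≤ ε) (hε1 : ε ≤ 1)
    (hfl : ∀ θ ∈ Icc (0:ℝ) 1, θ * v ≤ RS N (T ^ θ) ∧ RS N (T ^ θ) ≤ (θ + ε) * v)
    (hm : ∀ u u' : ℝ, 1 / 10 ≤ u → u ≤ u' → u' ≤ 1 →
      |(∑ p ∈ (PP T).filter (fun p => u < yy T p ∧ yy T p ≤ u'), 1 / (p : ℝ)) - Real.log (u' / u)| ≤ ε) :
    ∑ n ∈ BD N T s a (s - w) w, 1 / (n : ℝ) ≤ v * (RG k s a w + k * (12 * ε)) := by
  have hk0 : (0 : ℝ) < k := by exact_mod_cast hk
  have h1 : s - w = a + k * ((s - w - a) / k) := by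
    field_simp
    ring
  have h2 := region (N := N) (k := k) (T := T) (s := s) (a := a) (h := (s - w - a) / k) (w := w) (v := v) (ε := ε)
    hT hs1 ha0 (div_nonneg (by linarith) hk0.le) hk hw (by rw [← h1]; linarith) hv hε hε1 hfl hm
  rw [← h1] at h2
  exact h2

/-- the sum over the denominators -/
theorem sumB53 (P : Par) (hPe : P.e = 1 / 100000) (hPc : P.c = 53 / 100) {ε : ℝ} (hε : 0 < ε) (hε1 : ε ≤ 1 / 1000)
    (hδ : P.δ ≤ ε) (hF : Flat P ε) (hC : Coll P ε) {lam : ℝ} (hlam0 : 0 ≤ lam) (hlam1 : lam ≤ 3 / 10) :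
    ∀ᶠ T : ℝ in atTop, vT P T * (P.c * (5 / 12 - 5 * P.e) ^ 2 - Helper69.PP.kap P.c * (5 / 12 - 5 * P.e) ^ 4 / 6 - lam * (5 / 12 - 5 * P.e) -
      (2 * P.c * (5 / 12 - 5 * P.e) - lam) * (RG 24 (5 / 12 - 5 * P.e) (1 / 3 - 4 * P.e) 0 +
        RG 8 (5 / 12 - 5 * P.e) (1 / 4 - 4 * P.e) (1 / 7 - 4 * P.e) + RG 6 (5 / 12 - 5 * P.e) (1 / 5 - 4 * P.e) (1 / 5 - 4 * P.e)) -
      500 * ε) ≤ ∑ n ∈ NB P T, (Wn P.c T n - lam) / n := by
  classical
  obtain ⟨s, hs⟩ : ∃ s : ℝ, s = 5 / 12 - 5 * P.e := ⟨_, rfl⟩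
  have hs0 : 1 / 10 ≤ s := by rw [hs, hPe]; norm_num
  have hs1 : s ≤ 1 / 2 := by rw [hs, hPe]; norm_num
  have hmert := mert_log (a := 1 / 10) (by norm_num) hε
  filter_upwards [hF, hC, RW_ge P hε hδ hF hs0 hs1, hmert, eventually_gt_atTop 1] with T hT1 hT2 hT3 hT4 hT
  obtain ⟨hv1, hv2, hfl⟩ := hT1
  have hL : 0 < Real.log T := Real.log_pos hT
  have hT0 : 0 < T := by linarith
  have hv0 : 0 ≤ vT P T := by linarith
  rw [← hs]
  set N := NS P T with hN
  set v := vT P T with hv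
  have hcs : 0 ≤ 2 * P.c * s - lam := by
    have : (41 : ℝ) / 100 ≤ s := by rw [hs, hPe]; norm_num
    rw [hPc]
    linarith
  have hys : ∀ n : ℕ, n ≠ 0 → ((n : ℝ) ≤ T ^ s ↔ yy T n ≤ s) := by
    intro n hn
    have hn0 : (0 : ℝ) < n := by exact_mod_cast Nat.pos_of_ne_zero hn
    unfold yy
    rw [div_le_iff₀ hL, ← Real.log_rpow hT0, Real.log_le_log_iff hn0 (Real.rpow_pos_of_pos hT0 s)]
  -- denominators outside `R`
  have hout : ∀ n ∈ NB P T, n ∉ RN N (T ^ s) → 0 ≤ (Wn P.c T n - lam) / n := by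
    intro n hn hnR
    have hg := (mem_NB.1 hn).1
    have hgi := Gd_iff.1 hg
    have hn0 := (mem_RN.1 hgi.1).1
    have h1 : ¬ yy T n ≤ s := by
      intro h
      exact hnR (mem_RN.2 ⟨hn0, (hys n hn0).2 h, (mem_RN.1 hgi.1).2.2⟩)
    push Not at h1
    have h2 := Wn_ge (c := P.c) (b := 1 / 3) P.hc.le hT hgi.2.1 (fun p hp => NB_prime hT hn hp) (by norm_num)
    have h3 : (47 : ℝ) / 100 ≤ P.c - Helper69.PP.kap P.c * (1 / 3) ^ 2 := by
      have h4 : Helper69.PP.kap P.c ≤ 1 / 4 := by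
        unfold Helper69.PP.kap
        rw [hPc]
        have h5 := Real.pi_lt_d4
        have h6 := Real.pi_pos
        have h7 : Real.pi ^ 2 ≤ 3.1416 ^ 2 := pow_le_pow_left₀ h6.le h5.le 2
        norm_num at h7 ⊢
        linarith
      rw [hPc] at h4 ⊢
      linarith
    have h4 : (41 : ℝ) / 100 ≤ s := by rw [hs, hPe]; norm_num
    apply div_nonneg _ (Nat.cast_nonneg n)
    have h5 : 2 * (47 / 100) * (41 / 100) ≤ 2 * (P.c - Helper69.PP.kap P.c * (1 / 3) ^ 2) * yy T n := by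
      have h6 : (41 : ℝ) / 100 ≤ yy T n := by linarith
      calc 2 * (47 / 100) * (41 / 100 : ℝ) ≤ 2 * (P.c - Helper69.PP.kap P.c * (1 / 3) ^ 2) * (41 / 100) := by linarith
        _ ≤ _ := mul_le_mul_of_nonneg_left h6 (by linarith)
    linarith
  have hstep1 : ∑ n ∈ (RN N (T ^ s)).filter (fun n => n ∈ NB P T), (Wn P.c T n - lam) / n ≤
      ∑ n ∈ NB P T, (Wn P.c T n - lam) / n := by
    apply Finset.sum_le_sum_of_subset_of_nonneg
    · intro n hn
      exact (Finset.mem_filter.1 hn).2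
    · intro n hn hn2
      apply hout n hn
      intro h
      exact hn2 (Finset.mem_filter.2 ⟨h, hn⟩)
  have hstep2 := Finset.sum_filter_add_sum_filter_not (RN N (T ^ s)) (fun n => n ∈ NB P T) (fun n => (Wn P.c T n - lam) / n)
  -- the bad numbers
  have hbad : ∑ n ∈ (RN N (T ^ s)).filter (fun n => ¬ n ∈ NB P T), 1 / (n : ℝ) ≤
      ε + (v * (RG 24 s (1 / 3 - 4 * P.e) 0 + (24 : ℕ) * (12 * ε)) +
        v * (RG 8 s (1 / 4 - 4 * P.e) (1 / 7 - 4 * P.e) + (8 : ℕ) * (12 * ε)) +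
        v * (RG 6 s (1 / 5 - 4 * P.e) (1 / 5 - 4 * P.e) + (6 : ℕ) * (12 * ε))) := by
    have hr1 := region' (N := N) (k := 24) (T := T) (s := s) (a := 1 / 3 - 4 * P.e) (w := 0) (v := v) (ε := ε) hT (by linarith)
      (by rw [hPe]; norm_num) (by norm_num) le_rfl (by rw [hs, hPe]; norm_num) hv0 hε.le (by linarith) hfl hT4
    have hr2 := region' (N := N) (k := 8) (T := T) (s := s) (a := 1 / 4 - 4 * P.e) (w := 1 / 7 - 4 * P.e) (v := v) (ε := ε) hT (by linarith)
      (by rw [hPe]; norm_num) (by norm_num) (by rw [hPe]; norm_num) (by rw [hs, hPe]; norm_num) hv0 hε.le (by linarith) hfl hT4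
    have hr3 := region' (N := N) (k := 6) (T := T) (s := s) (a := 1 / 5 - 4 * P.e) (w := 1 / 5 - 4 * P.e) (v := v) (ε := ε) hT (by linarith)
      (by rw [hPe]; norm_num) (by norm_num) (by rw [hPe]; norm_num) (by rw [hs, hPe]; norm_num) hv0 hε.le (by linarith) hfl hT4
    have hc := cover ((RN N (T ^ s)).filter (fun n => ¬ n ∈ NB P T)) (Finset.univ : Finset (Fin 4))
      ![(RN (NS P T) T).filter (fun n => ¬ Gd P T n), BD N T s (1 / 3 - 4 * P.e) (s - 0) 0,
        BD N T s (1 / 4 - 4 * P.e) (s - (1 / 7 - 4 * P.e)) (1 / 7 - 4 * P.e),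
        BD N T s (1 / 5 - 4 * P.e) (s - (1 / 5 - 4 * P.e)) (1 / 5 - 4 * P.e)] ?_ (fun n => 1 / (n : ℝ)) (fun n => by positivity)
    · refine hc.trans ?_
      rw [Fin.sum_univ_four]
      have h0 : ∑ n ∈ (RN (NS P T) T).filter (fun n => ¬ Gd P T n), 1 / (n : ℝ) ≤ ε := by
        refine le_trans (le_of_eq ?_) hT2
        congr!
      simp only [Matrix.cons_val_zero, Matrix.cons_val_one, Matrix.cons_val]
      linarith
    · intro n hn
      rw [Finset.mem_filter] at hn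
      obtain ⟨hR, hnB⟩ := hn
      have hm := mem_RN.1 hR
      have hyn : yy T n ≤ s := (hys n hm.1).1 hm.2.1
      by_cases hg : Gd P T n
      · have hpn : ∀ p ∈ n.primeFactors, yy T p ≤ yy T n := by
          intro p hp
          unfold yy
          apply div_le_div_of_nonneg_right _ hL.le
          have h1 : p ≤ n := Nat.le_of_mem_primeFactors hp
          have h2 : (0 : ℝ) < p := by exact_mod_cast (Nat.prime_of_mem_primeFactors hp).pos
          exact Real.log_le_log h2 (by exact_mod_cast h1)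
        by_contra hcon
        push Not at hcon
        apply hnB
        have c1 := hcon 1 (Finset.mem_univ _)
        have c2 := hcon 2 (Finset.mem_univ _)
        have c3 := hcon 3 (Finset.mem_univ _)
        simp only [Matrix.cons_val_one, Matrix.cons_val] at c1 c2 c3
        unfold BD at c1 c2 c3
        rw [Finset.mem_filter] at c1 c2 c3
        push Not at c1 c2 c3
        apply memNB hT hg (by rw [← hs]; exact hyn)
        · intro p hp
          by_contra h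
          push Not at h
          have h1 := c1 hR p hp h (by linarith [hpn p hp])
          exact h1.1 rfl
        · intro p hp h
          by_contra h2
          push Not at h2
          have h1 := c2 hR p hp h (by linarith)
          linarith [h1.2]
        · intro p hp h _
          by_contra h2
          push Not at h2
          have h1 := c3 hR p hp h (by linarith)
          linarith [h1.2]
      · refine ⟨0, Finset.mem_univ _, ?_⟩
        show n ∈ (RN (NS P T) T).filter (fun n => ¬ Gd P T n)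
        rw [Finset.mem_filter]
        refine ⟨mem_RN.2 ⟨hm.1, hm.2.1.trans ?_, hm.2.2⟩, hg⟩
        calc T ^ s ≤ T ^ (1 : ℝ) := Real.rpow_le_rpow_of_exponent_le hT.le (by linarith)
          _ = T := Real.rpow_one T
  have hbad2 : ∑ n ∈ (RN N (T ^ s)).filter (fun n => ¬ n ∈ NB P T), (Wn P.c T n - lam) / n ≤
      (2 * P.c * s - lam) * ∑ n ∈ (RN N (T ^ s)).filter (fun n => ¬ n ∈ NB P T), 1 / (n : ℝ) := by
    rw [Finset.mul_sum]
    apply Finset.sum_le_sum
    intro n hn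
    have hR := (Finset.mem_filter.1 hn).1
    have hm := mem_RN.1 hR
    have hyn : yy T n ≤ s := (hys n hm.1).1 hm.2.1
    have h1 := Wn_le_yy P.hc.le hT hm.1
    have h2 : 2 * P.c * yy T n ≤ 2 * P.c * s := mul_le_mul_of_nonneg_left hyn (by linarith [P.hc])
    rw [div_eq_mul_one_div]
    exact mul_le_mul_of_nonneg_right (by linarith) (by positivity)
  have hsplit : ∑ n ∈ RN N (T ^ s), (Wn P.c T n - lam) / n = ∑ n ∈ RN N (T ^ s), Wn P.c T n / n - lam * RS N (T ^ s) := by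
    unfold RS
    rw [Finset.mul_sum, ← Finset.sum_sub_distrib]
    refine Finset.sum_congr rfl fun n _ => ?_
    ring
  have hRS : lam * RS N (T ^ s) ≤ lam * ((s + ε) * v) :=
    mul_le_mul_of_nonneg_left (hfl s ⟨by linarith, by linarith⟩).2 hlam0
  obtain ⟨RR, hRR⟩ : ∃ RR : ℝ, RR = RG 24 s (1 / 3 - 4 * P.e) 0 + RG 8 s (1 / 4 - 4 * P.e) (1 / 7 - 4 * P.e) +
      RG 6 s (1 / 5 - 4 * P.e) (1 / 5 - 4 * P.e) := ⟨_, rfl⟩
  rw [← hRR]
  have hbad3 : ∑ n ∈ (RN N (T ^ s)).filter (fun n => ¬ n ∈ NB P T), 1 / (n : ℝ) ≤ v * (RR + 458 * ε) := by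
    refine hbad.trans ?_
    rw [hRR]
    push_cast
    nlinarith
  have hbad4 := mul_le_mul_of_nonneg_left hbad3 hcs
  have hcs1 : 2 * P.c * s - lam ≤ 1 := by
    rw [hPc]
    linarith
  have hfin : (2 * P.c * s - lam) * (v * (458 * ε)) ≤ 1 * (v * (458 * ε)) :=
    mul_le_mul_of_nonneg_right hcs1 (by positivity)
  have hlv : lam * (ε * v) ≤ 3 / 10 * (ε * v) := mul_le_mul_of_nonneg_right hlam1 (by positivity)
  have hexp : v * (P.c * s ^ 2 - Helper69.PP.kap P.c * s ^ 4 / 6 - lam * s - (2 * P.c * s - lam) * RR - 500 * ε) =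
      v * (P.c * s ^ 2 - Helper69.PP.kap P.c * s ^ 4 / 6 - 4 * ε) - lam * ((s + ε) * v) - (2 * P.c * s - lam) * (v * (RR + 458 * ε)) +
      (lam * (ε * v) + (2 * P.c * s - lam) * (v * (458 * ε)) - 496 * (v * ε)) := by ring
  have hneg : lam * (ε * v) + (2 * P.c * s - lam) * (v * (458 * ε)) - 496 * (v * ε) ≤ 0 := by
    have h1 : 0 ≤ ε * v := by positivity
    nlinarith
  rw [hexp]
  linarith

end Pool.Agent.Helper57.PP
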